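import Pool.Agent.Helper20_AEU3.RefComb
import Pool.Agent.Helper44_BLK.Blv
import Pool.Agent.Helper15_AEU3.Hpk

/-!
Squad AEU, Part III, module REF: reflection of chains (helper20).
-/

namespace Pool.Agent.H60K.H20

open MeasureTheory Complex Filter Topology Pool.Agent.H62T Pool.Agent.H16F Pool.Agent.H60K
  Pool.Agent.H60K.H44
open scoped ENNReal NNReal

/-! ### Sums over chains -/

open Classical in
/-- total weight of the chains with labels in `R` -/
noncomputable def Cs (u : Fin 3 → ℂ) (h : Fin 3 → ℝ) {m : ℕ}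
    (R : (Fin (m + 1) → Finset (Fin 3)) → Prop) (τ : Fin (m + 1) → ℝ) (x y : ℂ) : ℝ≥0∞ :=
  ∑ A : Fin (m + 1) → Finset (Fin 3), if R A then ∫⁻ z : Fin m → ℂ, cw u h τ A x z y else 0

variable (u : Fin 3 → ℂ) (h : Fin 3 → ℝ)

theorem Cs_meas {m : ℕ} (R : (Fin (m + 1) → Finset (Fin 3)) → Prop) (τ : Fin (m + 1) → ℝ) :
    Measurable fun p : ℂ × ℂ => Cs u h R τ p.1 p.2 := by
  classical
  unfold Cs
  refine Finset.measurable_fun_sum _ fun A _ => ?_
  by_cases hR : R A
  · simp only [if_pos hR]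
    have hm : Measurable fun p : (ℂ × ℂ) × (Fin m → ℂ) => cw u h τ A p.1.1 p.2 p.1.2 :=
      cw_meas_comp u h τ A (measurable_fst.comp measurable_fst) measurable_snd
        (measurable_snd.comp measurable_fst)
    exact hm.lintegral_prod_right'
  · simp only [if_neg hR]
    exact measurable_const

theorem Cs_vis {m : ℕ} (O E : Finset (Fin 3)) (τ : Fin (m + 1) → ℝ) (hτ : ∀ j, 0 < τ j)
    (x y : ℂ) : Cs u h (Vis O E) τ x y = ENNReal.ofReal (kME u h O E (∑ j, τ j) x y) := by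
  classical
  have hpos : 0 < ∑ j, τ j := Finset.sum_pos (fun j _ => hτ _) Finset.univ_nonempty
  unfold Cs
  rw [kME_eq u h, ENNReal.ofReal_sum_of_nonneg fun A _ => kA_nonneg u h hpos x y A]
  simp only [chain u h m τ hτ]
  rw [Finset.sum_comm]
  refine Finset.sum_congr rfl fun A _ => ?_
  rw [Finset.sum_ite_eq]
  exact if_congr (vis_iff O E A) rfl rfl

/-- kernel of the paths which do not visit `0` -/
theorem sum_no {t : ℝ} (ht : 0 < t) (x y : ℂ) :
    ∑ a : Finset (Fin 3), (if 0 ∉ a then ENNReal.ofReal (kA u h a t x y) else 0)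
      = ENNReal.ofReal (pB u h {0} t x y) := by
  rw [pB_eq u h {0} t x y, ENNReal.ofReal_sum_of_nonneg fun A _ => kA_nonneg u h ht x y A,
    ← Finset.sum_filter]
  refine Finset.sum_congr ?_ fun _ _ => rfl
  ext a
  rw [Finset.mem_filter, Finset.mem_powerset, Finset.subset_compl_comm, Finset.singleton_subset_iff,
    Finset.mem_compl]
  simp

/-- kernel of all paths -/
theorem sum_all {t : ℝ} (ht : 0 < t) (x y : ℂ) :
    ∑ a : Finset (Fin 3), ENNReal.ofReal (kA u h a t x y) = ENNReal.ofReal (G t (x - y)) := by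
  rw [← ENNReal.ofReal_sum_of_nonneg fun A _ => kA_nonneg u h ht x y A]
  congr 1
  have h1 := pB_eq u h ∅ t x y
  have h2 : pB u h ∅ t x y = G t (x - y) := by
    unfold pB
    have : Dm u h ∅ = Set.univ := by
      ext x
      simp [Dm]
    rw [this]
    exact uni t x y ht
  rw [h2] at h1
  rw [h1]
  refine Finset.sum_congr ?_ fun _ _ => rfl
  ext a
  simp

/-- kernel of the paths which visit `0` -/
theorem sum_yes {t : ℝ} (ht : 0 < t) (x y : ℂ) :
    ∑ a : Finset (Fin 3), (if 0 ∈ a then ENNReal.ofReal (kA u h a t x y) else 0)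
      = ENNReal.ofReal (G t (x - y) - pB u h {0} t x y) := by
  have h1 := sum_all u h ht x y
  have h2 := sum_no u h ht x y
  have h3 : ∑ a : Finset (Fin 3), ENNReal.ofReal (kA u h a t x y)
      = ∑ a : Finset (Fin 3), (if 0 ∈ a then ENNReal.ofReal (kA u h a t x y) else 0)
        + ∑ a : Finset (Fin 3), (if 0 ∉ a then ENNReal.ofReal (kA u h a t x y) else 0) := by
    rw [← Finset.sum_add_distrib]
    refine Finset.sum_congr rfl fun a _ => ?_
    by_cases ha : 0 ∈ a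
    · simp [ha]
    · simp [ha]
  rw [h1, h2] at h3
  have hnn : 0 ≤ pB u h {0} t x y := by
    rw [pB_eq u h {0} t x y]
    exact Finset.sum_nonneg fun A _ => kA_nonneg u h ht x y A
  rw [ENNReal.ofReal_sub _ hnn, h3]
  exact (ENNReal.add_sub_cancel_right ENNReal.ofReal_ne_top).symm

theorem Cs_meas_l {m : ℕ} (R : (Fin (m + 1) → Finset (Fin 3)) → Prop) (τ : Fin (m + 1) → ℝ)
    (y : ℂ) : Measurable fun z => Cs u h R τ z y := by
  have := Measurable.comp (g := fun p : ℂ × ℂ => Cs u h R τ p.1 p.2)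
    (f := fun z : ℂ => (z, y)) (Cs_meas u h R τ) (measurable_id.prodMk measurable_const)
  exact this

theorem cons_step {m : ℕ} (τ : Fin (m + 2) → ℝ) (x y : ℂ) (a : Finset (Fin 3))
    (A : Fin (m + 1) → Finset (Fin 3)) :
    ∫⁻ z : Fin (m + 1) → ℂ, cw u h τ (Fin.cons a A) x z y
      = ∫⁻ z, ENNReal.ofReal (kA u h a (τ 0) x z)
        * ∫⁻ z' : Fin m → ℂ, cw u h (fun j => τ j.succ) A z z' y := by
  rw [lint_cons (fun z => cw u h τ (Fin.cons a A) x z y)
    (cw_meas_comp u h τ _ measurable_const measurable_id measurable_const)]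
  refine lintegral_congr fun z => ?_
  rw [← lintegral_const_mul' _ _ ENNReal.ofReal_ne_top]
  exact lintegral_congr fun z' => cw_succ u h τ a A x z z' y

open Classical in
theorem cons_sum {m : ℕ} (τ : Fin (m + 2) → ℝ) (x y : ℂ) (a : Finset (Fin 3))
    (R : (Fin (m + 1) → Finset (Fin 3)) → Prop) :
    ∑ A : Fin (m + 1) → Finset (Fin 3), (if R A then
      ∫⁻ z : Fin (m + 1) → ℂ, cw u h τ (Fin.cons a A) x z y else 0)
    = ∫⁻ z, ENNReal.ofReal (kA u h a (τ 0) x z) * Cs u h R (fun j => τ j.succ) z y := by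
  have hpm : Measurable fun z => ENNReal.ofReal (kA u h a (τ 0) x z) :=
    ENNReal.measurable_ofReal.comp (kA_meas_r u h a (τ 0) x)
  unfold Cs
  simp only [Finset.mul_sum]
  rw [lintegral_finsetSum]
  · refine Finset.sum_congr rfl fun A _ => ?_
    by_cases hR : R A
    · simp only [if_pos hR]
      exact cons_step u h τ x y a A
    · simp only [if_neg hR, mul_zero, lintegral_zero]
  · intro A _
    refine hpm.mul ?_
    by_cases hR : R A
    · simp only [if_pos hR]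
      have hm : Measurable fun p : ℂ × (Fin m → ℂ) =>
          cw u h (fun j => τ j.succ) A p.1 p.2 y :=
        cw_meas_comp u h _ A measurable_fst measurable_snd measurable_const
      exact hm.lintegral_prod_right'
    · simp only [if_neg hR]
      exact measurable_const

theorem Qr_cons (O E : Finset (Fin 3)) {m : ℕ} (a : Finset (Fin 3))
    (A : Fin (m + 1) → Finset (Fin 3)) :
    Qr O E (m + 1) (Fin.cons a A) ↔ (0 ∉ a ∧ Qr O E m A) ∨ (0 ∈ a ∧ Vis O E A) := Iff.rfl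

theorem Cs_cons {m : ℕ} (O E : Finset (Fin 3)) (τ : Fin (m + 2) → ℝ) (x y : ℂ) :
    Cs u h (Qr O E (m + 1)) τ x y
      = ∑ a : Finset (Fin 3), ((if 0 ∉ a then
          ∫⁻ z, ENNReal.ofReal (kA u h a (τ 0) x z)
            * Cs u h (Qr O E m) (fun j => τ j.succ) z y else 0)
        + (if 0 ∈ a then ∫⁻ z, ENNReal.ofReal (kA u h a (τ 0) x z)
            * Cs u h (Vis O E) (fun j => τ j.succ) z y else 0)) := by
  classical
  have e0 : Cs u h (Qr O E (m + 1)) τ x y = ∑ A : Fin (m + 1 + 1) → Finset (Fin 3),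
      (if Qr O E (m + 1) A then ∫⁻ z : Fin (m + 1) → ℂ, cw u h τ A x z y else 0) := rfl
  rw [e0, sum_cons]
  refine Finset.sum_congr rfl fun a _ => ?_
  rw [← cons_sum u h τ x y a (Qr O E m), ← cons_sum u h τ x y a (Vis O E)]
  simp only [Qr_cons]
  by_cases ha : 0 ∈ a
  · simp only [ha, not_true_eq_false, false_and, true_and, false_or, if_true, if_false, zero_add]
  · simp only [ha, not_false_eq_true, false_and, true_and, or_false, if_true, if_false, add_zero]

theorem sum_lint {t : ℝ} (x : ℂ) (P : Finset (Fin 3) → Prop) [DecidablePred P]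
    {c : ℂ → ℝ≥0∞} (hc : Measurable c) :
    ∑ a : Finset (Fin 3), (if P a then ∫⁻ z, ENNReal.ofReal (kA u h a t x z) * c z else 0)
      = ∫⁻ z, (∑ a : Finset (Fin 3), if P a then ENNReal.ofReal (kA u h a t x z) else 0)
          * c z := by
  simp only [Finset.sum_mul]
  rw [lintegral_finsetSum]
  · refine Finset.sum_congr rfl fun a _ => ?_
    by_cases ha : P a
    · simp only [if_pos ha]
    · simp only [if_neg ha, zero_mul, lintegral_zero]
  · intro a _
    by_cases ha : P a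
    · simp only [if_pos ha]
      exact (ENNReal.measurable_ofReal.comp (kA_meas_r u h a t x)).mul hc
    · simp only [if_neg ha, zero_mul]
      exact measurable_const

/-- recursion -/
theorem Cs_succ {m : ℕ} (O E : Finset (Fin 3)) (τ : Fin (m + 2) → ℝ) (hτ : ∀ j, 0 < τ j)
    (x y : ℂ) : Cs u h (Qr O E (m + 1)) τ x y
      = (∫⁻ z, ENNReal.ofReal (pB u h {0} (τ 0) x z)
          * Cs u h (Qr O E m) (fun j => τ j.succ) z y)
        + ∫⁻ z, ENNReal.ofReal (G (τ 0) (x - z) - pB u h {0} (τ 0) x z)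
          * ENNReal.ofReal (kME u h O E (∑ j : Fin (m + 1), τ j.succ) z y) := by
  have h1 := sum_lint u h (t := τ 0) x (fun a => 0 ∉ a)
    (Cs_meas_l u h (Qr O E m) (fun j => τ j.succ) y)
  have h2 := sum_lint u h (t := τ 0) x (fun a => 0 ∈ a)
    (Cs_meas_l u h (Vis O E) (fun j => τ j.succ) y)
  rw [Cs_cons, Finset.sum_add_distrib]
  refine Eq.trans (congrArg₂ (· + ·) h1 h2) ?_
  refine congrArg₂ (· + ·) ?_ ?_
  · exact lintegral_congr fun z => by rw [sum_no u h (hτ 0) x z]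
  · refine lintegral_congr fun z => ?_
    rw [sum_yes u h (hτ 0) x z, Cs_vis u h O E (fun j => τ j.succ) (fun j => hτ _)]

/-! ### Reflection -/

variable {u h}

theorem uc0 : uc u 0 = -u 0 := by simp [uc]

theorem hc0 : hc h 0 = -h 0 := by simp [hc]

theorem uc_ne {s : Fin 3} (hs : s ≠ 0) : uc u s = u s := by simp [uc, hs]

theorem hc_ne {s : Fin 3} (hs : s ≠ 0) : hc h s = h s := by simp [hc, hs]

theorem ip_neg (a z : ℂ) : ip (-a) z = -ip a z := by
  unfold ip
  simp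
  ring

theorem norm_uc (hu : ∀ s, ‖u s‖ = 1) (s : Fin 3) : ‖uc u s‖ = 1 := by
  by_cases hs : s = 0
  · rw [hs, uc0, norm_neg]
    exact hu 0
  · rw [uc_ne hs]
    exact hu s

theorem ip_rf (hu : ‖u 0‖ = 1) (z : ℂ) : ip (u 0) (rf u h 0 z) = 2 * h 0 - ip (u 0) z :=
  H15.ip_rl hu z

theorem rf_rf (hu : ‖u 0‖ = 1) (z : ℂ) : rf u h 0 (rf u h 0 z) = z := H15.rl_rl hu z

theorem rf_uc (z : ℂ) : rf (uc u) (hc h) 0 z = rf u h 0 z := by
  unfold rf
  rw [uc0, hc0, ip_neg]
  push_cast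
  ring

/-- the opposite half-plane -/
theorem opp_iff (hu : ‖u 0‖ = 1) (z : ℂ) :
    ip (uc u 0) (rf u h 0 z) < hc h 0 ↔ ip (u 0) z < h 0 := by
  rw [uc0, hc0, ip_neg, ip_rf hu]
  constructor <;> intro h <;> linarith

theorem dm_single (u : Fin 3 → ℂ) (h : Fin 3 → ℝ) : Dm u h {0} = {z | ip (u 0) z < h 0} := by
  ext z
  simp [Dm]

theorem pB0_out {u : Fin 3 → ℂ} {h : Fin 3 → ℝ} {t : ℝ} (ht : 0 < t) {x y : ℂ}
    (hxy : ¬ (ip (u 0) x < h 0 ∧ ip (u 0) y < h 0)) : pB u h {0} t x y = 0 := by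
  unfold pB
  refine ((H8.pdk _ (dm_open u h {0})).2 t ht).2.1 x y ?_
  rw [dm_single]
  by_contra hc
  rw [not_or, not_not, not_not] at hc
  exact hxy hc

theorem pB0_in {u : Fin 3 → ℂ} {h : Fin 3 → ℝ} (hu : ‖u 0‖ = 1) {t : ℝ} (ht : 0 < t) {x y : ℂ}
    (hx : ip (u 0) x < h 0) (hy : ip (u 0) y < h 0) :
    pB u h {0} t x y = G t (x - y) - G t (x - rf u h 0 y) := by
  unfold pB
  rw [dm_single]
  exact H15.hpk (u 0) (h 0) t x y hu ht hx hy

theorem G_congr {t : ℝ} {x y : ℂ} (h : ‖x‖ = ‖y‖) : G t x = G t y := by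
  unfold G
  rw [h]

theorem G_rf_rf (hu : ‖u 0‖ = 1) (t : ℝ) (x y : ℂ) :
    G t (rf u h 0 x - rf u h 0 y) = G t (x - y) := G_congr (H15.norm_rl_rl hu x y)

theorem G_rf (hu : ‖u 0‖ = 1) (t : ℝ) (x y : ℂ) :
    G t (rf u h 0 x - y) = G t (x - rf u h 0 y) := by
  rw [← G_rf_rf (u := u) (h := h) hu t (rf u h 0 x) y, rf_rf hu]

theorem pB0_rf (hu : ‖u 0‖ = 1) {t : ℝ} (ht : 0 < t) (x y : ℂ) :
    pB (uc u) (hc h) {0} t (rf u h 0 x) (rf u h 0 y) = pB u h {0} t x y := by
  have huc : ‖uc u 0‖ = 1 := by rw [uc0, norm_neg]; exact hu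
  by_cases hxy : ip (u 0) x < h 0 ∧ ip (u 0) y < h 0
  · rw [pB0_in huc ht ((opp_iff hu x).mpr hxy.1) ((opp_iff hu y).mpr hxy.2),
      pB0_in hu ht hxy.1 hxy.2, rf_uc, rf_rf hu, G_rf_rf hu, G_rf hu]
  · rw [pB0_out ht hxy, pB0_out ht]
    rw [opp_iff hu, opp_iff hu]
    exact hxy

theorem vis0_rf (hu : ‖u 0‖ = 1) {t : ℝ} (ht : 0 < t) {x : ℂ} (hx : ip (u 0) x < h 0) (y : ℂ) :
    G t (rf u h 0 x - y) - pB (uc u) (hc h) {0} t (rf u h 0 x) y
      = G t (x - y) - pB u h {0} t x y := by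
  have huc : ‖uc u 0‖ = 1 := by rw [uc0, norm_neg]; exact hu
  have hx' := (opp_iff (h := h) hu x).mpr hx
  by_cases hy : ip (u 0) y < h 0
  · have hy' : ¬ ip (uc u 0) y < hc h 0 := by
      rw [uc0, hc0, ip_neg]
      linarith
    rw [pB0_in hu ht hx hy, pB0_out ht (fun hc => hy' hc.2), G_rf hu]
    ring
  · rw [pB0_out ht (fun hc => hy hc.2)]
    by_cases hy' : ip (uc u 0) y < hc h 0
    · rw [pB0_in huc ht hx' hy', rf_uc, G_rf hu, G_rf_rf hu]
      ring
    · rw [pB0_out ht (fun hc => hy' hc.2)]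
      have e : rf u h 0 y = y := by
        rw [uc0, hc0, ip_neg] at hy'
        exact H15.rl_fix (by linarith : ip (u 0) y = h 0)
      rw [G_rf hu, e]

theorem kME_uc {O E : Finset (Fin 3)} (hO : 0 ∉ O) (hE : 0 ∉ E) (t : ℝ) (x y : ℂ) :
    kME (uc u) (hc h) O E t x y = kME u h O E t x y := by
  unfold kME
  refine Finset.sum_congr rfl fun B hB => ?_
  congr 1
  unfold pB
  congr 1
  ext z
  unfold Dm
  refine forall₂_congr fun s hs => ?_
  have hs0 : s ≠ 0 := by
    rintro rfl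
    rcases Finset.mem_union.mp hs with h1 | h1
    · exact hE h1
    · exact hO (Finset.mem_powerset.mp hB h1)
  rw [uc_ne hs0, hc_ne hs0]

/-- reflection of chains -/
theorem Cs_rf (hu : ∀ s, ‖u s‖ = 1) {O E : Finset (Fin 3)} (hO : 0 ∉ O) (hE : 0 ∉ E) (m : ℕ) :
    ∀ (τ : Fin (m + 1) → ℝ), (∀ j, 0 < τ j) → ∀ (x y : ℂ), ip (u 0) x < h 0 →
      Cs u h (Qr O E m) τ x y = Cs (uc u) (hc h) (Qr O E m) τ (rf u h 0 x) y := by
  induction m with
  | zero =>
    intro τ _ x y _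
    unfold Cs Qr
    simp
  | succ m ih =>
    intro τ hτ x y hx
    rw [Cs_succ u h O E τ hτ x y, Cs_succ (uc u) (hc h) O E τ hτ (rf u h 0 x) y]
    congr 1
    · have hmp : MeasurePreserving (rf u h 0) volume volume := H15.rl_mp (hu 0)
      have hme : MeasurableEmbedding (rf u h 0) := H15.rl_emb (hu 0)
      have e := hmp.lintegral_comp_emb hme (fun z => ENNReal.ofReal
        (pB (uc u) (hc h) {0} (τ 0) (rf u h 0 x) z)
        * Cs (uc u) (hc h) (Qr O E m) (fun j => τ j.succ) z y)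
      rw [← e]
      refine lintegral_congr fun z => ?_
      rw [pB0_rf (hu 0) (hτ 0)]
      by_cases hz : ip (u 0) z < h 0
      · rw [ih (fun j => τ j.succ) (fun j => hτ _) z y hz]
      · rw [pB0_out (hτ 0) (fun hc => hz hc.2), ENNReal.ofReal_zero, zero_mul, zero_mul]
    · refine lintegral_congr fun z => ?_
      rw [vis0_rf (hu 0) (hτ 0) hx, kME_uc hO hE]

/-- a chain which never visits `0` stays in the half-plane -/
theorem cw_zero {u : Fin 3 → ℂ} {h : Fin 3 → ℝ} (hu : ∀ s, ‖u s‖ = 1) {m : ℕ}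
    (τ : Fin (m + 1) → ℝ) (hτ : ∀ j, 0 < τ j) (A : Fin (m + 1) → Finset (Fin 3))
    (hA : ∀ j, 0 ∉ A j) (x y : ℂ) (z : Fin m → ℂ) (hy : ¬ ip (u 0) y < h 0) :
    cw u h τ A x z y = 0 := by
  unfold cw
  refine Finset.prod_eq_zero (Finset.mem_univ (Fin.last m)) ?_
  rw [Fin.snoc_last]
  by_contra hne
  have h1 : kA u h (A (Fin.last m)) (τ (Fin.last m)) ((Fin.cons x z : Fin (m + 1) → ℂ)
      (Fin.last m)) y ≠ 0 := by
    intro h0
    rw [h0, ENNReal.ofReal_zero] at hne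
    exact hne rfl
  exact hy ((((lab H15.hpk) u h hu).2 _ _ _ (hτ _)).2.2.2.2.2 _ 0 (hA _) h1).2

end Pool.Agent.H60K.H20
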