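import Pool.Agent.Helper20_AEU3.Ref

/-!
Squad AEU, Part III, module REF: final assembly (helper20).
-/

namespace Pool.Agent.H60K.H20

open MeasureTheory Complex Filter Topology Pool.Agent.H62T Pool.Agent.H16F Pool.Agent.H60K
  Pool.Agent.H60K.H44
open scoped ENNReal NNReal

theorem norm_us' (η1 η2 : ℝ) (s : Fin 3) : ‖us η1 η2 s‖ = 1 := by
  unfold us
  have h1 : ‖exp ((η1 : ℂ) * I)‖ = 1 := Complex.norm_exp_ofReal_mul_I η1
  have h2 : ‖exp (-((η2 : ℂ) * I))‖ = 1 := by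
    have := Complex.norm_exp_ofReal_mul_I (-η2)
    rwa [Complex.ofReal_neg, neg_mul] at this
  split_ifs
  · exact norm_one
  · rw [norm_mul, h1, Complex.norm_I, mul_one]
  · rw [norm_neg, norm_mul, h2, Complex.norm_I, mul_one]

theorem ip_us0 (η1 η2 : ℝ) (z : ℂ) : ip (us η1 η2 0) z = z.re := by
  unfold us Pool.Agent.H62T.ip
  simp

theorem hh0 (d : ℝ) : hh d 0 = d := by simp [hh]

/-! ### The cut-off -/

/-- the cut-off increases -/
def Up (ξ : ℝ) (x y : ℂ) : Prop := x.re < ξ ∧ ξ ≤ y.re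

theorem ite_dec {α : Type*} {p : Prop} (i j : Decidable p) (a b : α) :
    @ite α p i a b = @ite α p j a b := by
  by_cases hp : p
  · rw [if_pos hp, if_pos hp]
  · rw [if_neg hp, if_neg hp]

theorem ch_ne {ξ : ℝ} {x y : ℂ} : ch ξ x ≠ ch ξ y ↔ Up ξ x y ∨ Up ξ y x := by
  unfold ch Up
  by_cases h1 : ξ ≤ x.re <;> by_cases h2 : ξ ≤ y.re
  · simp [h1, h2, not_lt.mpr h1, not_lt.mpr h2]
  · simp [h1, h2, not_lt.mpr h1, not_le.mp h2]
  · simp [h1, h2, not_le.mp h1, not_lt.mpr h2]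
  · simp [h1, h2]

open Classical in
theorem ch_sub {ξ : ℝ} {x y : ℂ} (c : ℝ) : (ch ξ y - ch ξ x) * c
    = (if Up ξ x y then c else 0) - if Up ξ y x then c else 0 := by
  unfold ch Up
  by_cases h1 : ξ ≤ x.re <;> by_cases h2 : ξ ≤ y.re
  · simp [h1, h2, not_lt.mpr h1, not_lt.mpr h2]
  · simp [h1, h2, not_lt.mpr h1, not_le.mp h2]
  · simp [h1, h2, not_le.mp h1, not_lt.mpr h2]
  · simp [h1, h2]

theorem Up_meas (ξ : ℝ) : MeasurableSet {p : ℂ × ℂ | Up ξ p.1 p.2} := by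
  unfold Up
  refine MeasurableSet.inter ?_ ?_
  · exact measurableSet_lt (Complex.measurable_re.comp measurable_fst) measurable_const
  · exact measurableSet_le measurable_const (Complex.measurable_re.comp measurable_snd)

theorem Up_meas' (ξ : ℝ) : MeasurableSet {p : ℂ × ℂ | Up ξ p.2 p.1} := by
  unfold Up
  refine MeasurableSet.inter ?_ ?_
  · exact measurableSet_lt (Complex.measurable_re.comp measurable_snd) measurable_const
  · exact measurableSet_le measurable_const (Complex.measurable_re.comp measurable_fst)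

theorem Rw_meas (ξ1 δ ζ1 ζ2 : ℝ) : MeasurableSet (Rw ξ1 δ ζ1 ζ2) := by
  unfold Rw
  refine MeasurableSet.inter ?_ (MeasurableSet.inter ?_ ?_)
  · exact measurableSet_lt ((Complex.measurable_re.sub measurable_const).abs) measurable_const
  · exact measurableSet_lt measurable_const Complex.measurable_im
  · exact measurableSet_lt Complex.measurable_im measurable_const

theorem W_meas (ξ1 δ ζ1 ζ2 : ℝ) : MeasurableSet {p : ℂ × ℂ |
    p.1 ∈ Rw ξ1 δ ζ1 ζ2 ∧ p.2 ∈ Rw ξ1 δ ζ1 ζ2} :=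
  (measurable_fst (Rw_meas ξ1 δ ζ1 ζ2)).inter (measurable_snd (Rw_meas ξ1 δ ζ1 ζ2))

theorem Rw_fin (ξ1 δ ζ1 ζ2 : ℝ) : volume (Rw ξ1 δ ζ1 ζ2) < ⊤ := by
  have hsub : Rw ξ1 δ ζ1 ζ2 ⊆ Metric.closedBall 0 (|ξ1| + |δ| + |ζ1| + |ζ2|) := by
    rintro x ⟨h1, h2, h3⟩
    rw [mem_closedBall_zero_iff]
    refine (Complex.norm_le_abs_re_add_abs_im x).trans ?_
    have h4 : |x.re| ≤ |ξ1| + |δ| := by
      have : x.re = (x.re - ξ1) + ξ1 := by ring
      rw [this]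
      refine (abs_add_le _ _).trans ?_
      have := le_abs_self δ
      linarith
    have h5 : |x.im| ≤ |ζ1| + |ζ2| := by
      rw [abs_le]
      have := le_abs_self ζ1
      have := le_abs_self ζ2
      have := abs_nonneg ζ1
      have := abs_nonneg ζ2
      constructor <;> linarith
    linarith
  exact (measure_mono hsub).trans_lt measure_closedBall_lt_top

/-! ### The flux as a difference of masses -/

section Flux

variable (u : Fin 3 → ℂ) (h : Fin 3 → ℝ) {n : ℕ} [NeZero n] (τ : Fin n → ℝ)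
  (hτ : ∀ j, 0 < τ j)

open Classical in
include hτ in
theorem flux_eq (T : (Fin n → Finset (Fin 3)) → Prop) (ξ : ℝ)
    (hfin : Ms u h τ (fun _ A => T A) ≠ ⊤) :
    ∑ A : Fin n → Finset (Fin 3), ∫ x, (ch ξ (x 1) - ch ξ (x 0)) * (if T A then wt u h τ x A else 0)
      = (Ms u h τ (fun x A => T A ∧ Up ξ (x 0) (x 1))).toReal
        - (Ms u h τ (fun x A => T A ∧ Up ξ (x 1) (x 0))).toReal := by
  have hwnn : ∀ x A, 0 ≤ wt u h τ x A := fun x A =>
    Finset.prod_nonneg fun j _ => kA_nonneg u h (hτ j) _ _ _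
  have hT : ∀ A, T A → ∫⁻ x, ENNReal.ofReal (wt u h τ x A) ≠ ⊤ := by
    intro A hA hc
    apply hfin
    unfold Ms
    rw [ENNReal.sum_eq_top]
    exact ⟨A, Finset.mem_univ _, by simp only [if_pos hA]; exact hc⟩
  have hint : ∀ A, T A → Integrable fun x => wt u h τ x A := by
    intro A hA
    refine ⟨(wt_meas u h τ A).aestronglyMeasurable, ?_⟩
    rw [hasFiniteIntegral_iff_ofReal (Eventually.of_forall fun x => hwnn x A)]
    exact lt_top_iff_ne_top.mpr (hT A hA)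
  have hm1 : MeasurableSet {x : Fin n → ℂ | Up ξ (x 0) (x 1)} := by
    have hm : Measurable fun x : Fin n → ℂ => (x 0, x 1) :=
      (measurable_pi_apply (0 : Fin n)).prodMk (measurable_pi_apply 1)
    exact hm (Up_meas ξ)
  have hm2 : MeasurableSet {x : Fin n → ℂ | Up ξ (x 1) (x 0)} := by
    have hm : Measurable fun x : Fin n → ℂ => (x 1, x 0) :=
      (measurable_pi_apply (1 : Fin n)).prodMk (measurable_pi_apply 0)
    exact hm (Up_meas ξ)
  have key : ∀ (A : Fin n → Finset (Fin 3)) (P : (Fin n → ℂ) → Prop),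
      MeasurableSet {x | P x} → T A → Integrable (fun x => if P x then wt u h τ x A else 0) ∧
      ∫ x, (if P x then wt u h τ x A else 0)
        = (∫⁻ x, if T A ∧ P x then ENNReal.ofReal (wt u h τ x A) else 0).toReal := by
    intro A P hP hA
    have e1 : (fun x => if P x then wt u h τ x A else 0)
        = {x | P x}.indicator fun x => wt u h τ x A := by
      funext x
      rw [Set.indicator_apply]
      rfl
    constructor
    · rw [e1]
      exact (hint A hA).indicator hP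
    · rw [integral_eq_lintegral_of_nonneg_ae]
      · congr 1
        refine lintegral_congr fun x => ?_
        by_cases c : P x
        · rw [if_pos c, if_pos ⟨hA, c⟩]
        · rw [if_neg c, if_neg (fun h => c h.2), ENNReal.ofReal_zero]
      · refine Eventually.of_forall fun x => ?_
        show 0 ≤ if P x then wt u h τ x A else 0
        split_ifs
        · exact hwnn x A
        · exact le_rfl
      · rw [e1]
        exact ((hint A hA).indicator hP).aestronglyMeasurable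
  have hfin' : ∀ (P : (Fin n → ℂ) → Prop) (A : Fin n → Finset (Fin 3)),
      (∫⁻ x, if T A ∧ P x then ENNReal.ofReal (wt u h τ x A) else 0) ≠ ⊤ := by
    intro P A
    by_cases hA : T A
    · refine ne_top_of_le_ne_top (hT A hA) (lintegral_mono fun x => ?_)
      show (if T A ∧ P x then ENNReal.ofReal (wt u h τ x A) else 0) ≤ _
      split_ifs
      · exact le_rfl
      · exact zero_le
    · simp only [hA, false_and, if_false, lintegral_zero]
      exact ENNReal.zero_ne_top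
  unfold Ms
  rw [ENNReal.toReal_sum, ENNReal.toReal_sum, ← Finset.sum_sub_distrib]
  · refine Finset.sum_congr rfl fun A _ => ?_
    by_cases hA : T A
    · obtain ⟨k1, k2⟩ := key A (fun x => Up ξ (x 0) (x 1)) hm1 hA
      obtain ⟨k3, k4⟩ := key A (fun x => Up ξ (x 1) (x 0)) hm2 hA
      have e : ∀ x : Fin n → ℂ, (ch ξ (x 1) - ch ξ (x 0)) * (if T A then wt u h τ x A else 0)
          = (if Up ξ (x 0) (x 1) then wt u h τ x A else 0)
            - if Up ξ (x 1) (x 0) then wt u h τ x A else 0 := by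
        intro x
        rw [if_pos hA]
        exact ch_sub _
      simp only [e]
      rw [integral_sub k1 k3, k2, k4]
      congr 2
      · exact lintegral_congr fun x => ite_dec _ _ _ _
      · exact lintegral_congr fun x => ite_dec _ _ _ _
    · simp only [if_neg hA, mul_zero, integral_zero, hA, false_and, if_false, lintegral_zero,
        ENNReal.toReal_zero, sub_zero]
  · intro A _
    have := hfin' (fun x => Up ξ (x 1) (x 0)) A
    refine fun hc => this ?_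
    rw [← hc]
    exact lintegral_congr fun x => ite_dec _ _ _ _
  · intro A _
    have := hfin' (fun x => Up ξ (x 0) (x 1)) A
    refine fun hc => this ?_
    rw [← hc]
    exact lintegral_congr fun x => ite_dec _ _ _ _

end Flux

/-! ### The main term as a difference -/

section Main

variable {u : Fin 3 → ℂ} {h : Fin 3 → ℝ} {O E : Finset (Fin 3)} {m : ℕ}

theorem kME_nonneg {t : ℝ} (ht : 0 < t) (x y : ℂ) : 0 ≤ kME u h O E t x y := by
  rw [kME_eq]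
  exact Finset.sum_nonneg fun A _ => kA_nonneg u h ht x y A

theorem kME_le {t : ℝ} (ht : 0 < t) (x y : ℂ) : kME u h O E t x y ≤ G t (x - y) := by
  rw [kME_eq]
  have h1 := pB_eq u h ∅ t x y
  have h2 : pB u h ∅ t x y = G t (x - y) := by
    unfold pB
    have : Dm u h ∅ = Set.univ := by
      ext x
      simp [Dm]
    rw [this]
    exact uni t x y ht
  rw [← h2, h1]
  refine Finset.sum_le_sum_of_subset_of_nonneg ?_ fun A _ _ => kA_nonneg u h ht x y A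
  intro A _
  simp

theorem kME_meas (t : ℝ) : Measurable fun p : ℂ × ℂ => kME u h O E t (rf u h 0 p.2) p.1 := by
  have hrf : Measurable fun z : ℂ => rf u h 0 z := (H15.rl_cont).measurable
  simp only [kME_eq]
  refine Finset.measurable_fun_sum _ fun A _ => ?_
  exact kA_meas_comp u h A measurable_const (hrf.comp measurable_snd) measurable_fst

theorem G_le {t : ℝ} (ht : 0 < t) (z : ℂ) : G t z ≤ 1 / (4 * Real.pi * t) := by
  unfold G
  have h1 : 0 < 4 * Real.pi * t := by positivity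
  gcongr
  rw [Real.exp_le_one_iff]
  have : 0 ≤ ‖z‖ ^ 2 / (4 * t) := by positivity
  have e : -‖z‖ ^ 2 / (4 * t) = -(‖z‖ ^ 2 / (4 * t)) := by ring
  rw [e]
  linarith

open Classical in
theorem main_eq {a s ξ : ℝ} (ha : 0 < a) (hs : 0 < s) (ξ1 δ ζ1 ζ2 : ℝ) :
    (∀ P : ℂ → ℂ → Prop, (∫⁻ p : ℂ × ℂ, if P p.1 p.2 ∧ p.1 ∈ Rw ξ1 δ ζ1 ζ2 ∧ p.2 ∈ Rw ξ1 δ ζ1 ζ2
      then ENNReal.ofReal (G a (p.1 - p.2)) * ENNReal.ofReal (kME u h O E s (rf u h 0 p.2) p.1)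
      else 0) ≠ ⊤) ∧
    ∫ x in Rw ξ1 δ ζ1 ζ2, ∫ y in Rw ξ1 δ ζ1 ζ2, G a (x - y) * (ch ξ y - ch ξ x)
        * kME u h O E s (rf u h 0 y) x
      = (∫⁻ p : ℂ × ℂ, if Up ξ p.1 p.2 ∧ p.1 ∈ Rw ξ1 δ ζ1 ζ2 ∧ p.2 ∈ Rw ξ1 δ ζ1 ζ2 then
          ENNReal.ofReal (G a (p.1 - p.2)) * ENNReal.ofReal (kME u h O E s (rf u h 0 p.2) p.1)
          else 0).toReal
        - (∫⁻ p : ℂ × ℂ, if Up ξ p.2 p.1 ∧ p.1 ∈ Rw ξ1 δ ζ1 ζ2 ∧ p.2 ∈ Rw ξ1 δ ζ1 ζ2 then
          ENNReal.ofReal (G a (p.1 - p.2)) * ENNReal.ofReal (kME u h O E s (rf u h 0 p.2) p.1)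
          else 0).toReal := by
  set W : Set (ℂ × ℂ) := Rw ξ1 δ ζ1 ζ2 ×ˢ Rw ξ1 δ ζ1 ζ2 with hW
  have hWm : MeasurableSet W := (Rw_meas _ _ _ _).prod (Rw_meas _ _ _ _)
  have hWfin : volume W < ⊤ := by
    rw [hW, Measure.volume_eq_prod, Measure.prod_prod]
    exact ENNReal.mul_lt_top (Rw_fin _ _ _ _) (Rw_fin _ _ _ _)
  set f : ℂ × ℂ → ℝ := fun p => G a (p.1 - p.2) * kME u h O E s (rf u h 0 p.2) p.1 with hf
  have hGn : ∀ z, 0 ≤ G a z := fun z => AEU.H44.G_nonneg ha z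
  have hfn : ∀ p, 0 ≤ f p := fun p => mul_nonneg (hGn _) (kME_nonneg hs _ _)
  have hGm : Measurable fun p : ℂ × ℂ => G a (p.1 - p.2) := by
    unfold G
    fun_prop
  have hfm : Measurable f := hGm.mul (kME_meas s)
  set C : ℝ := 1 / (4 * Real.pi * a) * (1 / (4 * Real.pi * s)) with hC
  have hfC : ∀ p, f p ≤ C := by
    intro p
    refine mul_le_mul (G_le ha _) ((kME_le hs _ _).trans (G_le hs _)) (kME_nonneg hs _ _) ?_
    positivity
  have hfW : IntegrableOn f W := by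
    refine Measure.integrableOn_of_bounded (M := C) hWfin.ne hfm.aestronglyMeasurable ?_
    refine Eventually.of_forall fun p => ?_
    rw [Real.norm_of_nonneg (hfn p)]
    exact hfC p
  -- pieces
  have key : ∀ P : ℂ × ℂ → Prop, MeasurableSet {p | P p} →
      IntegrableOn (fun p => if P p then f p else 0) W ∧
      ∫ p in W, (if P p then f p else 0)
        = (∫⁻ p : ℂ × ℂ, if P p ∧ p.1 ∈ Rw ξ1 δ ζ1 ζ2 ∧ p.2 ∈ Rw ξ1 δ ζ1 ζ2 then
          ENNReal.ofReal (G a (p.1 - p.2)) * ENNReal.ofReal (kME u h O E s (rf u h 0 p.2) p.1)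
          else 0).toReal := by
    intro P hP
    have e1 : (fun p => if P p then f p else 0) = {p | P p}.indicator f := by
      funext p
      rw [Set.indicator_apply]
      rfl
    constructor
    · rw [e1]
      exact hfW.indicator hP
    · rw [integral_eq_lintegral_of_nonneg_ae]
      · congr 1
        rw [← lintegral_indicator hWm]
        refine lintegral_congr fun p => ?_
        by_cases c : P p
        · by_cases c2 : p ∈ W
          · rw [Set.indicator_of_mem c2, if_pos c, if_pos ⟨c, c2.1, c2.2⟩]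
            exact ENNReal.ofReal_mul (hGn _)
          · rw [Set.indicator_of_notMem c2, if_neg (fun h => c2 ⟨h.2.1, h.2.2⟩)]
        · rw [if_neg (fun h => c h.1)]
          by_cases c2 : p ∈ W
          · rw [Set.indicator_of_mem c2, if_neg c, ENNReal.ofReal_zero]
          · rw [Set.indicator_of_notMem c2]
      · refine Eventually.of_forall fun p => ?_
        show 0 ≤ if P p then f p else 0
        split_ifs
        · exact hfn p
        · exact le_rfl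
      · rw [e1]
        exact (hfm.indicator hP).aestronglyMeasurable
  refine ⟨fun P => ?_, ?_⟩
  · have h1 : (∫⁻ p : ℂ × ℂ, if P p.1 p.2 ∧ p.1 ∈ Rw ξ1 δ ζ1 ζ2 ∧ p.2 ∈ Rw ξ1 δ ζ1 ζ2
      then ENNReal.ofReal (G a (p.1 - p.2)) * ENNReal.ofReal (kME u h O E s (rf u h 0 p.2) p.1)
      else 0) ≤ ∫⁻ _ in W, ENNReal.ofReal C := by
      rw [← lintegral_indicator hWm]
      refine lintegral_mono fun p => ?_
      show (if P p.1 p.2 ∧ p.1 ∈ Rw ξ1 δ ζ1 ζ2 ∧ p.2 ∈ Rw ξ1 δ ζ1 ζ2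
        then ENNReal.ofReal (G a (p.1 - p.2)) * ENNReal.ofReal (kME u h O E s (rf u h 0 p.2) p.1)
        else 0) ≤ W.indicator (fun _ => ENNReal.ofReal C) p
      by_cases c : P p.1 p.2 ∧ p.1 ∈ Rw ξ1 δ ζ1 ζ2 ∧ p.2 ∈ Rw ξ1 δ ζ1 ζ2
      · have hpW : p ∈ W := ⟨c.2.1, c.2.2⟩
        rw [if_pos c, Set.indicator_of_mem hpW, ← ENNReal.ofReal_mul (hGn _)]
        exact ENNReal.ofReal_le_ofReal (hfC p)
      · rw [if_neg c]
        exact zero_le
    refine ne_top_of_le_ne_top ?_ h1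
    rw [setLIntegral_const]
    exact ENNReal.mul_ne_top ENNReal.ofReal_ne_top hWfin.ne
  · obtain ⟨k1, k2⟩ := key (fun p => Up ξ p.1 p.2) (Up_meas ξ)
    obtain ⟨k3, k4⟩ := key (fun p => Up ξ p.2 p.1) (Up_meas' ξ)
    have e1 : ∀ x y : ℂ, G a (x - y) * (ch ξ y - ch ξ x) * kME u h O E s (rf u h 0 y) x
        = (if Up ξ x y then f (x, y) else 0) - if Up ξ y x then f (x, y) else 0 := by
      intro x y
      rw [← ch_sub]
      show _ = (ch ξ y - ch ξ x) * (G a (x - y) * kME u h O E s (rf u h 0 y) x)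
      ring
    simp only [e1]
    have e2 := setIntegral_prod (μ := (volume : Measure ℂ)) (ν := (volume : Measure ℂ))
      (s := Rw ξ1 δ ζ1 ζ2) (t := Rw ξ1 δ ζ1 ζ2)
      (fun p : ℂ × ℂ => (if Up ξ p.1 p.2 then f p else 0) - if Up ξ p.2 p.1 then f p else 0)
      (k1.sub k3)
    refine Eq.trans e2.symm ?_
    refine Eq.trans (integral_sub k1 k3) ?_
    exact congrArg₂ (fun a b : ℝ => a - b) k2 k4

end Main

open Classical in
/-- module REF -/
theorem ref : RefStatement := by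
  intro η1 η2 d ξ1 δ ζ1 ζ2 n _ τ O E hδ hξ hn hτ h0 hE hO hOE hfin
  obtain ⟨m, rfl⟩ : ∃ m, n = m + 2 := ⟨n - 2, by omega⟩
  set u := us η1 η2 with hu
  set h := hh d with hh'
  have hun : ∀ s, ‖u s‖ = 1 := norm_us' η1 η2
  set T : (Fin (m + 2) → Finset (Fin 3)) → Prop := fun A => Fj O A 0 ∧ ∀ j, Disjoint (A j) E
    with hT
  have hTv : ∀ A, T A → Vis (insert 0 O) E A := by
    rintro A ⟨⟨k, hk0, hkn, hk, hkO⟩, hd⟩
    refine ⟨fun s hs => ?_, hd⟩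
    rcases Finset.mem_insert.mp hs with rfl | hs
    · exact ⟨_, hk⟩
    · obtain ⟨l, -, -, hl⟩ := hkO s hs
      exact ⟨_, hl⟩
  have hfT : Ms u h τ (fun _ A => T A) ≠ ⊤ := by
    refine ne_top_of_le_ne_top hfin ?_
    rw [Ms_eq, Ms_eq]
    exact Mg_mono _ fun _ A hA => hTv A hA
  set WW : ℂ → ℂ → Prop := fun x y => x ∈ Rw ξ1 δ ζ1 ζ2 ∧ y ∈ Rw ξ1 δ ζ1 ζ2 with hWW
  have hWm : MeasurableSet {p : ℂ × ℂ | WW p.1 p.2} := W_meas ξ1 δ ζ1 ζ2
  set Sp : ℂ → ℂ → Prop := fun x y => Up ξ1 x y ∧ x ∈ Rw ξ1 δ ζ1 ζ2 ∧ y ∈ Rw ξ1 δ ζ1 ζ2 with hSp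
  set Sm : ℂ → ℂ → Prop := fun x y => Up ξ1 y x ∧ x ∈ Rw ξ1 δ ζ1 ζ2 ∧ y ∈ Rw ξ1 δ ζ1 ζ2 with hSm
  have hSpm : MeasurableSet {p : ℂ × ℂ | Sp p.1 p.2} := (Up_meas ξ1).inter hWm
  have hSmm : MeasurableSet {p : ℂ × ℂ | Sm p.1 p.2} := (Up_meas' ξ1).inter hWm
  have hWip : ∀ x y, WW x y → ip (u 0) x < h 0 ∧ ip (u 0) y < h 0 := by
    rintro x y ⟨hx, hy⟩
    rw [hu, hh', ip_us0, ip_us0, hh0]
    have h1 := (abs_lt.mp hx.1).2
    have h2 := (abs_lt.mp hy.1).2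
    constructor <;> linarith
  obtain ⟨p1, p2⟩ := core hun hO h0 hE τ hτ Sp hSpm (fun x y hxy => hWip x y hxy.2)
  obtain ⟨q1, q2⟩ := core hun hO h0 hE τ hτ Sm hSmm (fun x y hxy => hWip x y hxy.2)
  -- names of the masses
  set a1 := Ms u h τ (fun x A => (Fj O A 0 ∧ ∀ j, Disjoint (A j) E) ∧ Sp (x 0) (x 1)) with ha1
  set a2 := Ms u h τ (fun x A => (Fj O A 0 ∧ ∀ j, Disjoint (A j) E) ∧ Sm (x 0) (x 1)) with ha2
  set b1 := Ms u h τ (fun x A => Bad2 O E A 0 ∧ Sp (x 0) (x 1)) with hb1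
  set b2 := Ms u h τ (fun x A => Bad2 O E A 0 ∧ Sm (x 0) (x 1)) with hb2
  set m1 := Mtw u h τ (fun x A => (Bad2 O E A 1 ∨ Bad3 O E A) ∧ Sp (x 0) (x 1)) with hm1
  set m2 := Mtw u h τ (fun x A => (Bad2 O E A 1 ∨ Bad3 O E A) ∧ Sm (x 0) (x 1)) with hm2
  set e1 := Ms u h τ (fun x A => T A ∧ Up ξ1 (x 0) (x 1) ∧ ¬ WW (x 0) (x 1)) with he1
  set e2 := Ms u h τ (fun x A => T A ∧ Up ξ1 (x 1) (x 0) ∧ ¬ WW (x 0) (x 1)) with he2
  have hevm : ∀ (P : (Fin (m + 2) → Finset (Fin 3)) → Prop) (S : ℂ → ℂ → Prop),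
      MeasurableSet {p : ℂ × ℂ | S p.1 p.2} → ∀ A : Fin (m + 2) → Finset (Fin 3),
      MeasurableSet {x : Fin (m + 2) → ℂ | P A ∧ S (x 0) (x 1)} := by
    intro P S hS A
    by_cases c : P A
    · have := S_meas S hS m
      simpa [c] using this
    · simp only [c, false_and, Set.setOf_false, MeasurableSet.empty]
  -- decomposition of the flux
  have d1 : Ms u h τ (fun x A => T A ∧ Up ξ1 (x 0) (x 1)) = a1 + e1 := by
    rw [ha1, he1, Ms_eq, Ms_eq, Ms_eq]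
    refine Mg_add _ (fw_meas u h τ) (hevm T Sp hSpm) (fun x A => ?_) (fun x A h1 h2 => ?_)
    · constructor
      · rintro ⟨h1, h2⟩
        by_cases c : WW (x 0) (x 1)
        · exact Or.inl ⟨h1, h2, c⟩
        · exact Or.inr ⟨h1, h2, c⟩
      · rintro (⟨h1, h2⟩ | ⟨h1, h2, -⟩)
        · exact ⟨h1, h2.1⟩
        · exact ⟨h1, h2⟩
    · exact h2.2.2 h1.2.2
  have d2 : Ms u h τ (fun x A => T A ∧ Up ξ1 (x 1) (x 0)) = a2 + e2 := by
    rw [ha2, he2, Ms_eq, Ms_eq, Ms_eq]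
    refine Mg_add _ (fw_meas u h τ) (hevm T Sm hSmm) (fun x A => ?_) (fun x A h1 h2 => ?_)
    · constructor
      · rintro ⟨h1, h2⟩
        by_cases c : WW (x 0) (x 1)
        · exact Or.inl ⟨h1, h2, c⟩
        · exact Or.inr ⟨h1, h2, c⟩
      · rintro (⟨h1, h2⟩ | ⟨h1, h2, -⟩)
        · exact ⟨h1, h2.1⟩
        · exact ⟨h1, h2⟩
    · exact h2.2.2 h1.2.2
  have hsp : ∀ x y, Sp x y → ¬ Sm x y := fun x y h1 h2 => by
    have := h1.1.1
    have := h2.1.2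
    linarith
  have hnwm : MeasurableSet {p : ℂ × ℂ | ¬ WW p.1 p.2} := hWm.compl
  have r1 : e1 + e2 ≤ Ms u h τ (fun x A => Fj O A 0 ∧ (∀ j, Disjoint (A j) E) ∧
      ch ξ1 (x 0) ≠ ch ξ1 (x 1) ∧ ¬ (x 0 ∈ Rw ξ1 δ ζ1 ζ2 ∧ x 1 ∈ Rw ξ1 δ ζ1 ζ2)) := by
    rw [he1, he2, Ms_eq, Ms_eq, Ms_eq]
    refine le_of_eq (Eq.symm (Mg_add _ (fw_meas u h τ)
      (hevm T (fun x y => Up ξ1 x y ∧ ¬ WW x y) ((Up_meas ξ1).inter hnwm))
      (fun x A => ?_) (fun x A h1 h2 => ?_)))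
    · rw [ch_ne]
      constructor
      · rintro ⟨h1, h2, h3 | h3, h4⟩
        · exact Or.inl ⟨⟨h1, h2⟩, h3, h4⟩
        · exact Or.inr ⟨⟨h1, h2⟩, h3, h4⟩
      · rintro (⟨⟨h1, h2⟩, h3, h4⟩ | ⟨⟨h1, h2⟩, h3, h4⟩)
        · exact ⟨h1, h2, Or.inl h3, h4⟩
        · exact ⟨h1, h2, Or.inr h3, h4⟩
    · have := h1.2.1.1
      have := h2.2.1.2
      linarith
  have r2 : b1 + b2 ≤ Ms u h τ (fun x A => Bad2 O E A 0 ∧ ch ξ1 (x 0) ≠ ch ξ1 (x 1) ∧
      x 0 ∈ Rw ξ1 δ ζ1 ζ2 ∧ x 1 ∈ Rw ξ1 δ ζ1 ζ2) := by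
    rw [hb1, hb2, Ms_eq, Ms_eq, Ms_eq]
    refine le_of_eq (Eq.symm (Mg_add _ (fw_meas u h τ)
      (hevm (fun A => Bad2 O E A 0) Sp hSpm) (fun x A => ?_) (fun x A h1 h2 => ?_)))
    · rw [ch_ne]
      constructor
      · rintro ⟨h1, h3 | h3, h4⟩
        · exact Or.inl ⟨h1, h3, h4⟩
        · exact Or.inr ⟨h1, h3, h4⟩
      · rintro (⟨h1, h3, h4⟩ | ⟨h1, h3, h4⟩)
        · exact ⟨h1, Or.inl h3, h4⟩
        · exact ⟨h1, Or.inr h3, h4⟩
    · exact hsp _ _ h1.2 h2.2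
  have r3 : m1 + m2 ≤ Mtw u h τ (fun x A => (Bad2 O E A 1 ∨ Bad3 O E A) ∧
      ch ξ1 (x 0) ≠ ch ξ1 (x 1) ∧ x 0 ∈ Rw ξ1 δ ζ1 ζ2 ∧ x 1 ∈ Rw ξ1 δ ζ1 ζ2) := by
    rw [hm1, hm2, Mtw_eq, Mtw_eq, Mtw_eq]
    refine le_of_eq (Eq.symm (Mg_add _ (fww_meas u h τ)
      (hevm (fun A => Bad2 O E A 1 ∨ Bad3 O E A) Sp hSpm) (fun x A => ?_) (fun x A h1 h2 => ?_)))
    · rw [ch_ne]
      constructor
      · rintro ⟨h1, h3 | h3, h4⟩
        · exact Or.inl ⟨h1, h3, h4⟩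
        · exact Or.inr ⟨h1, h3, h4⟩
      · rintro (⟨h1, h3, h4⟩ | ⟨h1, h3, h4⟩)
        · exact ⟨h1, Or.inl h3, h4⟩
        · exact ⟨h1, Or.inr h3, h4⟩
    · exact hsp _ _ h1.2 h2.2
  refine le_trans ?_ (add_le_add (add_le_add r1 r2) r3)
  -- finiteness
  have hle : ∀ S : (Fin (m + 2) → ℂ) → (Fin (m + 2) → Finset (Fin 3)) → Prop,
      (∀ x A, S x A → T A) → Ms u h τ S ≠ ⊤ := by
    intro S hS
    refine ne_top_of_le_ne_top hfT ?_
    rw [Ms_eq, Ms_eq]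
    exact Mg_mono _ fun x A hx => hS x A hx
  have fa1 : a1 ≠ ⊤ := hle _ fun x A hx => hx.1
  have fa2 : a2 ≠ ⊤ := hle _ fun x A hx => hx.1
  have fe1 : e1 ≠ ⊤ := hle _ fun x A hx => hx.1
  have fe2 : e2 ≠ ⊤ := hle _ fun x A hx => hx.1
  by_cases hbt : b1 + b2 + (m1 + m2) = ⊤
  · have : e1 + e2 + (b1 + b2) + (m1 + m2) = ⊤ := by
      rw [add_assoc, hbt]
      exact add_top _
    rw [this]
    exact le_top
  have fb : b1 + b2 ≠ ⊤ := fun hc => hbt (by rw [hc]; exact top_add _)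
  have fm : m1 + m2 ≠ ⊤ := fun hc => hbt (by rw [hc]; exact add_top _)
  have fb1 : b1 ≠ ⊤ := fun hc => fb (by rw [hc]; exact top_add _)
  have fb2 : b2 ≠ ⊤ := fun hc => fb (by rw [hc]; exact add_top _)
  have fm1 : m1 ≠ ⊤ := fun hc => fm (by rw [hc]; exact top_add _)
  have fm2 : m2 ≠ ⊤ := fun hc => fm (by rw [hc]; exact add_top _)
  -- the main term
  have hsum : ∑ j, τ j - τ 0 = ∑ j : Fin (m + 1), τ j.succ := by
    rw [Fin.sum_univ_succ]
    ring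
  have hspos : 0 < ∑ j : Fin (m + 1), τ j.succ :=
    Finset.sum_pos (fun j _ => hτ _) Finset.univ_nonempty
  obtain ⟨n1, n2⟩ := main_eq (u := u) (h := h) (O := O) (E := E) (ξ := ξ1) (hτ 0) hspos ξ1 δ ζ1 ζ2
  have hLp : LK u h O E τ Sp = ∫⁻ p : ℂ × ℂ, if Up ξ1 p.1 p.2 ∧ p.1 ∈ Rw ξ1 δ ζ1 ζ2 ∧
      p.2 ∈ Rw ξ1 δ ζ1 ζ2 then ENNReal.ofReal (G (τ 0) (p.1 - p.2)) * ENNReal.ofReal
        (kME u h O E (∑ j : Fin (m + 1), τ j.succ) (rf u h 0 p.2) p.1) else 0 :=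
    lintegral_congr fun p => ite_dec _ _ _ _
  have hLm : LK u h O E τ Sm = ∫⁻ p : ℂ × ℂ, if Up ξ1 p.2 p.1 ∧ p.1 ∈ Rw ξ1 δ ζ1 ζ2 ∧
      p.2 ∈ Rw ξ1 δ ζ1 ζ2 then ENNReal.ofReal (G (τ 0) (p.1 - p.2)) * ENNReal.ofReal
        (kME u h O E (∑ j : Fin (m + 1), τ j.succ) (rf u h 0 p.2) p.1) else 0 :=
    lintegral_congr fun p => ite_dec _ _ _ _
  have fk1 : LK u h O E τ Sp ≠ ⊤ := by
    rw [hLp]
    exact n1 (fun x y => Up ξ1 x y)
  have fk2 : LK u h O E τ Sm ≠ ⊤ := by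
    rw [hLm]
    exact n1 (fun x y => Up ξ1 y x)
  have hTC : TC u h τ O E ξ1 = (a1 + e1).toReal - (a2 + e2).toReal := by
    rw [← d1, ← d2]
    refine Eq.trans ?_ (flux_eq u h τ hτ T ξ1 hfT)
    unfold TC
    refine Finset.sum_congr rfl fun A _ => integral_congr_ae (Eventually.of_forall fun x => ?_)
    exact congrArg (fun c : ℝ => (ch ξ1 (x 1) - ch ξ1 (x 0)) * c) (ite_dec _ _ _ _)
  have hTT : TT3 η1 η2 d O E ξ1 δ ζ1 ζ2 (τ 0) (∑ j, τ j)
      = (LK u h O E τ Sp).toReal - (LK u h O E τ Sm).toReal := by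
    unfold TT3
    rw [hsum, hLp, hLm]
    exact n2
  have t1 := ENNReal.toReal_mono (ENNReal.add_ne_top.mpr ⟨ENNReal.add_ne_top.mpr ⟨fk1, fb1⟩, fm1⟩) p1
  have t2 := ENNReal.toReal_mono (ENNReal.add_ne_top.mpr ⟨ENNReal.add_ne_top.mpr ⟨fa1, fb1⟩, fm1⟩) p2
  have t3 := ENNReal.toReal_mono (ENNReal.add_ne_top.mpr ⟨ENNReal.add_ne_top.mpr ⟨fk2, fb2⟩, fm2⟩) q1
  have t4 := ENNReal.toReal_mono (ENNReal.add_ne_top.mpr ⟨ENNReal.add_ne_top.mpr ⟨fa2, fb2⟩, fm2⟩) q2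
  rw [ENNReal.toReal_add (ENNReal.add_ne_top.mpr ⟨fk1, fb1⟩) fm1, ENNReal.toReal_add fk1 fb1] at t1
  rw [ENNReal.toReal_add (ENNReal.add_ne_top.mpr ⟨fa1, fb1⟩) fm1, ENNReal.toReal_add fa1 fb1] at t2
  rw [ENNReal.toReal_add (ENNReal.add_ne_top.mpr ⟨fk2, fb2⟩) fm2, ENNReal.toReal_add fk2 fb2] at t3
  rw [ENNReal.toReal_add (ENNReal.add_ne_top.mpr ⟨fa2, fb2⟩) fm2, ENNReal.toReal_add fa2 fb2] at t4
  have fall : e1 + e2 + (b1 + b2) + (m1 + m2) ≠ ⊤ :=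
    ENNReal.add_ne_top.mpr ⟨ENNReal.add_ne_top.mpr ⟨ENNReal.add_ne_top.mpr ⟨fe1, fe2⟩, fb⟩, fm⟩
  rw [← ENNReal.ofReal_toReal fall]
  refine ENNReal.ofReal_le_ofReal ?_
  rw [ENNReal.toReal_add (ENNReal.add_ne_top.mpr ⟨ENNReal.add_ne_top.mpr ⟨fe1, fe2⟩, fb⟩) fm,
    ENNReal.toReal_add (ENNReal.add_ne_top.mpr ⟨fe1, fe2⟩) fb, ENNReal.toReal_add fe1 fe2,
    ENNReal.toReal_add fb1 fb2, ENNReal.toReal_add fm1 fm2, hTC, hTT,
    ENNReal.toReal_add fa1 fe1, ENNReal.toReal_add fa2 fe2]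
  have g1 : 0 ≤ e1.toReal := ENNReal.toReal_nonneg
  have g2 : 0 ≤ e2.toReal := ENNReal.toReal_nonneg
  rw [abs_le]
  constructor <;> linarith

end Pool.Agent.H60K.H20
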