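import Pool.Agent.Helper20_AEU3.RefMass

/-!
Squad AEU, Part III, module REF (helper20).
-/

namespace Pool.Agent.H60K.H20

open MeasureTheory Complex Filter Topology Pool.Agent.H62T Pool.Agent.H16F Pool.Agent.H60K
  Pool.Agent.H60K.H44
open scoped ENNReal NNReal

/-! ### The two inequalities for fixed first points -/

theorem Mg_congr {n : ℕ} (w : (Fin n → Finset (Fin 3)) → (Fin n → ℂ) → ℝ≥0∞)
    {S S' : (Fin n → ℂ) → (Fin n → Finset (Fin 3)) → Prop}
    (hS : ∀ x A, w A x ≠ 0 → (S x A ↔ S' x A)) : Mg w S = Mg w S' := by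
  classical
  unfold Mg
  refine Finset.sum_congr rfl fun A _ => lintegral_congr fun x => ?_
  by_cases hw : w A x = 0
  · rw [hw, ite_self, ite_self]
  · by_cases h1 : S x A
    · rw [if_pos h1, if_pos ((hS x A hw).mp h1)]
    · rw [if_neg h1, if_neg (fun h2 => h1 ((hS x A hw).mpr h2))]

section Core

variable {u : Fin 3 → ℂ} {h : Fin 3 → ℝ} {O E : Finset (Fin 3)} {m : ℕ}

/-- the bad event, on the labels of the last blocks -/
def Rb (O E : Finset (Fin 3)) (m : ℕ) (A : Fin (m + 1) → Finset (Fin 3)) : Prop :=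
  Bad2 O E (Fin.cons ∅ A : Fin (m + 2) → Finset (Fin 3)) 1 ∨
    Bad3 O E (Fin.cons ∅ A : Fin (m + 2) → Finset (Fin 3))

theorem tail_cons (a : Finset (Fin 3)) (A : Fin (m + 1) → Finset (Fin 3)) :
    (fun j => (Fin.cons a A : Fin (m + 2) → Finset (Fin 3)) (Fin.succ j)) = A := by
  funext j
  exact Fin.cons_succ _ _ _

theorem Rb_iff (A : Fin (m + 2) → Finset (Fin 3)) (hA : A 0 = ∅) :
    Rb O E m (fun j => A j.succ) ↔ Bad2 O E A 1 ∨ Bad3 O E A := by
  have : (Fin.cons ∅ (fun j : Fin (m + 1) => A j.succ) : Fin (m + 2) → Finset (Fin 3)) = A := by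
    rw [← hA]
    exact Fin.cons_self_tail A
  unfold Rb
  rw [this]

theorem cs_le (hO : O.Nonempty) (τ : Fin (m + 1) → ℝ) (x y : ℂ) :
    Cs u h (Qr O E m) τ x y ≤ Cs u h (Vis O E) τ x y + Cs u h (Rb O E m) τ x y := by
  classical
  unfold Cs
  rw [← Finset.sum_add_distrib]
  refine Finset.sum_le_sum fun A _ => ?_
  by_cases c : Qr O E m A
  · rw [if_pos c]
    have h1 : P1 O E (Fin.cons ∅ A : Fin (m + 2) → Finset (Fin 3)) := by
      rw [P1_iff, tail_cons, ← Qr_iff hO]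
      exact c
    rcases P1_vis h1 with h2 | h2
    · rw [tail_cons] at h2
      rw [if_pos h2]
      exact le_self_add
    · have h3 : Rb O E m A := Or.inl h2
      rw [if_pos h3]
      exact le_add_self
  · rw [if_neg c]
    exact zero_le

theorem le_cs (hO : O.Nonempty) (hu : ∀ s, ‖u s‖ = 1) (τ : Fin (m + 1) → ℝ)
    (hτ : ∀ j, 0 < τ j) (x y : ℂ) (hy : ¬ ip (u 0) y < h 0) :
    Cs u h (Vis O E) τ x y ≤ Cs u h (Qr O E m) τ x y + Cs u h (Rb O E m) τ x y := by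
  classical
  unfold Cs
  rw [← Finset.sum_add_distrib]
  refine Finset.sum_le_sum fun A _ => ?_
  by_cases c : Vis O E A
  · rw [if_pos c]
    by_cases c0 : ∃ j, 0 ∈ A j
    · have h1 : Vis O E (fun j : Fin (m + 1) =>
          (Fin.cons ∅ A : Fin (m + 2) → Finset (Fin 3)) j.succ) := by
        rw [tail_cons]
        exact c
      have h2 : ∃ j : Fin (m + 1), 0 ∈ (Fin.cons ∅ A : Fin (m + 2) → Finset (Fin 3)) j.succ := by
        obtain ⟨j, hj⟩ := c0
        exact ⟨j, by rw [Fin.cons_succ]; exact hj⟩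
      rcases vis_P1 h1 h2 with h3 | h3
      · rw [P1_iff, tail_cons, ← Qr_iff hO] at h3
        rw [if_pos h3]
        exact le_self_add
      · have h4 : Rb O E m A := Or.inr h3
        rw [if_pos h4]
        exact le_add_self
    · have h0 : ∀ j, 0 ∉ A j := fun j hj => c0 ⟨j, hj⟩
      have : ∫⁻ z : Fin m → ℂ, cw u h τ A x z y = 0 := by
        simp only [fun z => cw_zero hu τ hτ A h0 x y z hy, lintegral_zero]
      rw [this]
      exact zero_le
  · rw [if_neg c]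
    exact zero_le

end Core

/-! ### The two inequalities for masses -/

section Mass

variable {u : Fin 3 → ℂ} {h : Fin 3 → ℝ} {O E : Finset (Fin 3)} {m : ℕ}

open Classical in
/-- the main term -/
noncomputable def LK (u : Fin 3 → ℂ) (h : Fin 3 → ℝ) (O E : Finset (Fin 3))
    (τ : Fin (m + 2) → ℝ) (S : ℂ → ℂ → Prop) : ℝ≥0∞ :=
  ∫⁻ p : ℂ × ℂ, if S p.1 p.2 then ENNReal.ofReal (G (τ 0) (p.1 - p.2))
    * ENNReal.ofReal (kME u h O E (∑ j : Fin (m + 1), τ j.succ) (rf u h 0 p.2) p.1) else 0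

theorem core (hu : ∀ s, ‖u s‖ = 1) (hO : O.Nonempty) (h0 : 0 ∉ O) (hE : 0 ∉ E)
    (τ : Fin (m + 2) → ℝ) (hτ : ∀ j, 0 < τ j) (S : ℂ → ℂ → Prop)
    (hS : MeasurableSet {p : ℂ × ℂ | S p.1 p.2})
    (hS1 : ∀ x y, S x y → ip (u 0) x < h 0 ∧ ip (u 0) y < h 0) :
    Ms u h τ (fun x A => (Fj O A 0 ∧ ∀ j, Disjoint (A j) E) ∧ S (x 0) (x 1))
      ≤ LK u h O E τ S + Ms u h τ (fun x A => Bad2 O E A 0 ∧ S (x 0) (x 1))
        + Mtw u h τ (fun x A => (Bad2 O E A 1 ∨ Bad3 O E A) ∧ S (x 0) (x 1)) ∧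
    LK u h O E τ S
      ≤ Ms u h τ (fun x A => (Fj O A 0 ∧ ∀ j, Disjoint (A j) E) ∧ S (x 0) (x 1))
        + Ms u h τ (fun x A => Bad2 O E A 0 ∧ S (x 0) (x 1))
        + Mtw u h τ (fun x A => (Bad2 O E A 1 ∨ Bad3 O E A) ∧ S (x 0) (x 1)) := by
  classical
  have hSm := fun n => S_meas S hS n
  have hG : Measurable fun p : ℂ × ℂ => ENNReal.ofReal (G (τ 0) (p.1 - p.2)) := by
    unfold G
    fun_prop
  have hrf : Measurable fun z : ℂ => rf u h 0 z := (H15.rl_cont).measurable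
  -- the mass of the bad reflected configurations
  have eM : Mtw u h τ (fun x A => (Bad2 O E A 1 ∨ Bad3 O E A) ∧ S (x 0) (x 1))
      = ∫⁻ p : ℂ × ℂ, if S p.1 p.2 then ENNReal.ofReal (G (τ 0) (p.1 - p.2))
        * Cs (uc u) (hc h) (Rb O E m) (fun j => τ j.succ) (rf u h 0 p.2) p.1 else 0 := by
    rw [← Mtw_two u h τ hτ (Rb O E m) S hS]
    rw [Mtw_eq, Mtw_eq]
    refine Mg_congr _ fun x A hw => ?_
    have c : A 0 = ∅ := by
      by_contra c
      exact hw (if_neg c)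
    rw [Rb_iff A c]
  -- the mass of the chains
  have eP : Ms u h τ (fun x A => P1 O E A ∧ S (x 0) (x 1))
      = ∫⁻ p : ℂ × ℂ, if S p.1 p.2 then ENNReal.ofReal (G (τ 0) (p.1 - p.2))
        * Cs (uc u) (hc h) (Qr O E m) (fun j => τ j.succ) (rf u h 0 p.2) p.1 else 0 := by
    have e1 : Ms u h τ (fun x A => P1 O E A ∧ S (x 0) (x 1))
        = Ms u h τ (fun x A => Qr O E m (fun j => A j.succ) ∧ S (x 0) (x 1)) := by
      congr 1
      funext x A
      rw [P1_iff, ← Qr_iff hO]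
    rw [e1, Ms_two u h τ hτ (Qr O E m) S hS]
    refine lintegral_congr fun p => ?_
    by_cases c : S p.1 p.2
    · rw [if_pos c, if_pos c, Cs_rf hu h0 hE m (fun j => τ j.succ) (fun j => hτ _) p.2 p.1
        (hS1 _ _ c).2]
    · rw [if_neg c, if_neg c]
  have eK : LK u h O E τ S
      = ∫⁻ p : ℂ × ℂ, if S p.1 p.2 then ENNReal.ofReal (G (τ 0) (p.1 - p.2))
        * Cs (uc u) (hc h) (Vis O E) (fun j => τ j.succ) (rf u h 0 p.2) p.1 else 0 := by
    unfold LK
    refine lintegral_congr fun p => ?_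
    rw [Cs_vis _ _ _ _ _ (fun j => hτ _), kME_uc h0 hE]
  have hcm : ∀ R : (Fin (m + 1) → Finset (Fin 3)) → Prop, Measurable fun p : ℂ × ℂ =>
      Cs (uc u) (hc h) R (fun j => τ j.succ) (rf u h 0 p.2) p.1 := fun R => by
    have := Measurable.comp (g := fun p : ℂ × ℂ => Cs (uc u) (hc h) R (fun j => τ j.succ) p.1 p.2)
      (f := fun p : ℂ × ℂ => (rf u h 0 p.2, p.1)) (Cs_meas (uc u) (hc h) R (fun j => τ j.succ))
      ((hrf.comp measurable_snd).prodMk measurable_fst)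
    exact this
  have hmi : ∀ R : (Fin (m + 1) → Finset (Fin 3)) → Prop, Measurable fun p : ℂ × ℂ =>
      if S p.1 p.2 then ENNReal.ofReal (G (τ 0) (p.1 - p.2))
        * Cs (uc u) (hc h) R (fun j => τ j.succ) (rf u h 0 p.2) p.1 else 0 := fun R =>
    Measurable.ite hS (hG.mul (hcm R)) measurable_const
  -- comparison of the masses of the reflected chains
  have gen : ∀ R R' : (Fin (m + 1) → Finset (Fin 3)) → Prop,
      (∀ x y : ℂ, ip (u 0) y < h 0 → Cs (uc u) (hc h) R (fun j => τ j.succ) x y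
        ≤ Cs (uc u) (hc h) R' (fun j => τ j.succ) x y
          + Cs (uc u) (hc h) (Rb O E m) (fun j => τ j.succ) x y) →
      (∫⁻ p : ℂ × ℂ, if S p.1 p.2 then ENNReal.ofReal (G (τ 0) (p.1 - p.2))
        * Cs (uc u) (hc h) R (fun j => τ j.succ) (rf u h 0 p.2) p.1 else 0)
      ≤ (∫⁻ p : ℂ × ℂ, if S p.1 p.2 then ENNReal.ofReal (G (τ 0) (p.1 - p.2))
        * Cs (uc u) (hc h) R' (fun j => τ j.succ) (rf u h 0 p.2) p.1 else 0)
        + ∫⁻ p : ℂ × ℂ, if S p.1 p.2 then ENNReal.ofReal (G (τ 0) (p.1 - p.2))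
        * Cs (uc u) (hc h) (Rb O E m) (fun j => τ j.succ) (rf u h 0 p.2) p.1 else 0 := by
    intro R R' hR
    rw [← lintegral_add_left (hmi R')]
    refine lintegral_mono fun p => ?_
    show (if S p.1 p.2 then ENNReal.ofReal (G (τ 0) (p.1 - p.2))
        * Cs (uc u) (hc h) R (fun j => τ j.succ) (rf u h 0 p.2) p.1 else 0)
      ≤ (if S p.1 p.2 then ENNReal.ofReal (G (τ 0) (p.1 - p.2))
        * Cs (uc u) (hc h) R' (fun j => τ j.succ) (rf u h 0 p.2) p.1 else 0)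
        + if S p.1 p.2 then ENNReal.ofReal (G (τ 0) (p.1 - p.2))
        * Cs (uc u) (hc h) (Rb O E m) (fun j => τ j.succ) (rf u h 0 p.2) p.1 else 0
    by_cases c : S p.1 p.2
    · rw [if_pos c, if_pos c, if_pos c, ← mul_add]
      exact mul_le_mul' le_rfl (hR _ _ (hS1 _ _ c).1)
    · rw [if_neg c, if_neg c, if_neg c, add_zero]
  have i1 := gen (Qr O E m) (Vis O E) (fun x y _ => cs_le hO (fun j => τ j.succ) x y)
  have i2 := gen (Vis O E) (Qr O E m) (fun x y hy => le_cs hO (norm_uc hu)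
    (fun j => τ j.succ) (fun j => hτ _) x y (by rw [uc0, hc0, ip_neg]; linarith))
  rw [← eM, ← eP, ← eK] at i1 i2
  -- the events for the chains
  have hmT : ∀ A : Fin (m + 2) → Finset (Fin 3), MeasurableSet {x : Fin (m + 2) → ℂ |
      (Fj O A 0 ∧ ∀ j, Disjoint (A j) E) ∧ S (x 0) (x 1)} := fun A => by
    by_cases c : Fj O A 0 ∧ ∀ j, Disjoint (A j) E
    · simp only [c, true_and]
      have := hSm m
      simpa [c] using this
    · simp only [c, false_and, Set.setOf_false, MeasurableSet.empty]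
  have j1 : Ms u h τ (fun x A => (Fj O A 0 ∧ ∀ j, Disjoint (A j) E) ∧ S (x 0) (x 1))
      ≤ Ms u h τ (fun x A => P1 O E A ∧ S (x 0) (x 1)) := by
    rw [Ms_eq, Ms_eq]
    exact Mg_mono _ fun x A hx => ⟨fj_P1 hx.1, hx.2⟩
  have j2 : Ms u h τ (fun x A => P1 O E A ∧ S (x 0) (x 1))
      ≤ Ms u h τ (fun x A => (Fj O A 0 ∧ ∀ j, Disjoint (A j) E) ∧ S (x 0) (x 1))
        + Ms u h τ (fun x A => Bad2 O E A 0 ∧ S (x 0) (x 1)) := by
    rw [Ms_eq, Ms_eq, Ms_eq]
    refine Mg_le_add _ (fw_meas u h τ) hmT fun x A hx => ?_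
    rcases P1_fj hx.1 with hb | hb
    · exact Or.inl ⟨hb, hx.2⟩
    · exact Or.inr ⟨hb, hx.2⟩
  constructor
  · refine (j1.trans i1).trans ?_
    gcongr
    exact le_self_add
  · refine i2.trans ?_
    gcongr

end Mass

end Pool.Agent.H60K.H20
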