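import Pool.Agent.Helper60_AEU.Stmt

/-!
Squad AEU, Part III, module REF: combinatorics of the events (helper20).
-/

namespace Pool.Agent.H60K.H20

open MeasureTheory Complex Filter Topology Pool.Agent.H62T Pool.Agent.H16F Pool.Agent.H60K

/-- the event of the reflected chain, by recursion on the number of blocks -/
def Qr (O E : Finset (Fin 3)) : (m : ℕ) → (Fin (m + 1) → Finset (Fin 3)) → Prop
  | 0, _ => False
  | m + 1, A => (0 ∉ A 0 ∧ Qr O E m (fun j => A j.succ)) ∨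
      (0 ∈ A 0 ∧ Vis O E (fun j : Fin (m + 1) => A j.succ))

/-- explicit form -/
def Qx (O E : Finset (Fin 3)) (m : ℕ) (A : Fin (m + 1) → Finset (Fin 3)) : Prop :=
  ∃ k : Fin (m + 1), 0 ∈ A k ∧ (∀ l, l < k → 0 ∉ A l) ∧ (∀ s ∈ O, ∃ l, k < l ∧ s ∈ A l) ∧
    ∀ l, k < l → Disjoint (A l) E

theorem Qr_iff {O E : Finset (Fin 3)} (hO : O.Nonempty) (m : ℕ) :
    ∀ A : Fin (m + 1) → Finset (Fin 3), Qr O E m A ↔ Qx O E m A := by
  induction m with
  | zero =>
    intro A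
    constructor
    · intro h
      exact h.elim
    · rintro ⟨k, -, -, h3, -⟩
      obtain ⟨s, hs⟩ := hO
      obtain ⟨l, hl, -⟩ := h3 s hs
      have h4 := Fin.lt_def.mp hl
      have h5 := l.isLt
      omega
  | succ m ih =>
    intro A
    show (0 ∉ A 0 ∧ Qr O E m (fun j => A j.succ)) ∨
      (0 ∈ A 0 ∧ Vis O E (fun j : Fin (m + 1) => A j.succ)) ↔ _
    rw [ih]
    constructor
    · rintro (⟨h0, k, h1, h2, h3, h4⟩ | ⟨h0, h1, h2⟩)
      · refine ⟨k.succ, h1, ?_, ?_, ?_⟩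
        · intro l hl
          refine Fin.cases (fun _ => h0) (fun i hi => ?_) l hl
          exact h2 i (Fin.succ_lt_succ_iff.mp hi)
        · intro s hs
          obtain ⟨l, hl, hsl⟩ := h3 s hs
          exact ⟨l.succ, Fin.succ_lt_succ_iff.mpr hl, hsl⟩
        · intro l hl
          refine Fin.cases (fun hl => ?_) (fun i hi => ?_) l hl
          · exact absurd hl (Fin.not_lt_zero _)
          · exact h4 i (Fin.succ_lt_succ_iff.mp hi)
      · refine ⟨0, h0, ?_, ?_, ?_⟩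
        · intro l hl
          exact absurd hl (Fin.not_lt_zero _)
        · intro s hs
          obtain ⟨j, hj⟩ := h1 s hs
          exact ⟨j.succ, Fin.succ_pos _, hj⟩
        · intro l hl
          refine Fin.cases (fun hl => ?_) (fun i _ => ?_) l hl
          · exact absurd hl (lt_irrefl _)
          · exact h2 i
    · rintro ⟨k, h1, h2, h3, h4⟩
      refine Fin.cases (fun h1 h2 h3 h4 => ?_) (fun i h1 h2 h3 h4 => ?_) k h1 h2 h3 h4
      · right
        refine ⟨h1, fun s hs => ?_, fun j => ?_⟩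
        · obtain ⟨l, hl, hsl⟩ := h3 s hs
          refine Fin.cases (fun hl hsl => ?_) (fun i hi hsl => ?_) l hl hsl
          · exact absurd hl (lt_irrefl _)
          · exact ⟨i, hsl⟩
        · exact h4 j.succ (Fin.succ_pos _)
      · left
        refine ⟨h2 0 (Fin.succ_pos _), i, h1, fun l hl => ?_, fun s hs => ?_, fun l hl => ?_⟩
        · exact h2 l.succ (Fin.succ_lt_succ_iff.mpr hl)
        · obtain ⟨l, hl, hsl⟩ := h3 s hs
          refine Fin.cases (fun hl hsl => ?_) (fun j hj hsl => ?_) l hl hsl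
          · exact absurd hl (Fin.not_lt_zero _)
          · exact ⟨j, Fin.succ_lt_succ_iff.mp hj, hsl⟩
        · exact h4 l.succ (Fin.succ_lt_succ_iff.mpr hl)

/-! ### Indices -/

theorem ofNat_succ {m : ℕ} (i : Fin (m + 1)) : Fin.ofNat (m + 2) (i.val + 1) = i.succ := by
  apply Fin.ext
  show (i.val + 1) % (m + 2) = i.val + 1
  exact Nat.mod_eq_of_lt (by omega)

/-- the event with natural indices -/
def P1 {n : ℕ} [NeZero n] (O E : Finset (Fin 3)) (A : Fin n → Finset (Fin 3)) : Prop :=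
  ∃ k : ℕ, Fst A k ∧ (∀ s ∈ O, ∃ l : ℕ, k < l ∧ l < n ∧ s ∈ A (Fin.ofNat n l)) ∧
    ∀ l : ℕ, k < l → l < n → Disjoint (A (Fin.ofNat n l)) E

theorem ex_idx {m l : ℕ} (h0 : 0 < l) (h1 : l < m + 2) : ∃ i : Fin (m + 1), l = i.val + 1 :=
  ⟨⟨l - 1, by omega⟩, by show l = l - 1 + 1; omega⟩

theorem P1_iff {O E : Finset (Fin 3)} {m : ℕ} (A : Fin (m + 2) → Finset (Fin 3)) :
    P1 O E A ↔ Qx O E m (fun j => A j.succ) := by
  constructor
  · rintro ⟨k, ⟨hk0, hkn, hk, hkl⟩, h3, h4⟩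
    obtain ⟨i, rfl⟩ := ex_idx hk0 hkn
    rw [ofNat_succ] at hk
    refine ⟨i, hk, fun l hl => ?_, fun s hs => ?_, fun l hl => ?_⟩
    · have := hkl (l.val + 1) (by omega) (by have := Fin.lt_def.mp hl; omega)
      rwa [ofNat_succ] at this
    · obtain ⟨l, hl1, hl2, hl3⟩ := h3 s hs
      obtain ⟨j, rfl⟩ := ex_idx (by omega) hl2
      rw [ofNat_succ] at hl3
      exact ⟨j, Fin.lt_def.mpr (by omega), hl3⟩
    · have := h4 (l.val + 1) (by have := Fin.lt_def.mp hl; omega) (by have := l.isLt; omega)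
      rwa [ofNat_succ] at this
  · rintro ⟨k, h1, h2, h3, h4⟩
    refine ⟨k.val + 1, ⟨by omega, by have := k.isLt; omega, by rw [ofNat_succ]; exact h1,
      fun l hl0 hl => ?_⟩, fun s hs => ?_, fun l hl hln => ?_⟩
    · obtain ⟨j, rfl⟩ := ex_idx hl0 (by have := k.isLt; omega : l < m + 2)
      rw [ofNat_succ]
      exact h2 j (Fin.lt_def.mpr (by omega))
    · obtain ⟨l, hl, hsl⟩ := h3 s hs
      exact ⟨l.val + 1, by have := Fin.lt_def.mp hl; omega, by have := l.isLt; omega,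
        by rw [ofNat_succ]; exact hsl⟩
    · obtain ⟨j, rfl⟩ := ex_idx (by omega : 0 < l) hln
      rw [ofNat_succ]
      exact h4 j (Fin.lt_def.mpr (by omega))

theorem vis_nat {O E : Finset (Fin 3)} {m : ℕ} (A : Fin (m + 2) → Finset (Fin 3)) :
    Vis O E (fun j : Fin (m + 1) => A j.succ) ↔
      (∀ s ∈ O, ∃ l : ℕ, 0 < l ∧ l < m + 2 ∧ s ∈ A (Fin.ofNat (m + 2) l)) ∧
      ∀ l : ℕ, 0 < l → l < m + 2 → Disjoint (A (Fin.ofNat (m + 2) l)) E := by
  constructor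
  · rintro ⟨h1, h2⟩
    refine ⟨fun s hs => ?_, fun l h0 hl => ?_⟩
    · obtain ⟨j, hj⟩ := h1 s hs
      exact ⟨j.val + 1, by omega, by have := j.isLt; omega, by rw [ofNat_succ]; exact hj⟩
    · obtain ⟨j, rfl⟩ := ex_idx h0 hl
      rw [ofNat_succ]
      exact h2 j
  · rintro ⟨h1, h2⟩
    refine ⟨fun s hs => ?_, fun j => ?_⟩
    · obtain ⟨l, h0, hl, hsl⟩ := h1 s hs
      obtain ⟨j, rfl⟩ := ex_idx h0 hl
      rw [ofNat_succ] at hsl
      exact ⟨j, hsl⟩
    · have := h2 (j.val + 1) (by omega) (by have := j.isLt; omega)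
      rwa [ofNat_succ] at this

/-- existence of a first visit -/
theorem ex_fst {n : ℕ} [NeZero n] (A : Fin n → Finset (Fin 3)) {k : ℕ} (h0 : 0 < k) (h1 : k < n)
    (h2 : 0 ∈ A (Fin.ofNat n k)) : ∃ k', Fst A k' ∧ k' ≤ k := by
  classical
  have hex : ∃ k, 0 < k ∧ k < n ∧ 0 ∈ A (Fin.ofNat n k) := ⟨k, h0, h1, h2⟩
  refine ⟨Nat.find hex, ⟨(Nat.find_spec hex).1, (Nat.find_spec hex).2.1, (Nat.find_spec hex).2.2,
    fun l hl0 hl hc => ?_⟩, Nat.find_min' hex ⟨h0, h1, h2⟩⟩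
  exact Nat.find_min hex hl ⟨hl0, hl.trans (Nat.find_spec hex).2.1, hc⟩

theorem fj_P1 {n : ℕ} [NeZero n] {O E : Finset (Fin 3)} {A : Fin n → Finset (Fin 3)}
    (h : Fj O A 0 ∧ ∀ j, Disjoint (A j) E) : P1 O E A := by
  obtain ⟨⟨k, hk0, hkn, hk, hO⟩, hE⟩ := h
  rw [zero_add] at hk
  obtain ⟨k', hk', hle⟩ := ex_fst A hk0 hkn hk
  refine ⟨k', hk', fun s hs => ?_, fun l _ _ => hE _⟩
  obtain ⟨l, hl1, hl2, hl3⟩ := hO s hs
  rw [zero_add] at hl3
  exact ⟨l, by omega, hl2, hl3⟩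

theorem P1_fj {n : ℕ} [NeZero n] {O E : Finset (Fin 3)} {A : Fin n → Finset (Fin 3)}
    (h : P1 O E A) : (Fj O A 0 ∧ ∀ j, Disjoint (A j) E) ∨ Bad2 O E A 0 := by
  obtain ⟨k, hk, hO, hE⟩ := h
  by_cases hall : ∀ j, Disjoint (A j) E
  · left
    refine ⟨⟨k, hk.1, hk.2.1, ?_, fun s hs => ?_⟩, hall⟩
    · rw [zero_add]
      exact hk.2.2.1
    · obtain ⟨l, h1, h2, h3⟩ := hO s hs
      exact ⟨l, h1, h2, by rw [zero_add]; exact h3⟩
  · right
    obtain ⟨j, hj⟩ := not_forall.mp hall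
    have hjn : Fin.ofNat n j.val = j := by
      apply Fin.ext
      show j.val % n = j.val
      exact Nat.mod_eq_of_lt j.isLt
    refine ⟨k, hk, hO, hE, j.val, Nat.zero_le _, ?_, by rw [hjn]; exact hj⟩
    by_contra hc
    exact hj (by have := hE j.val (by omega) j.isLt; rwa [hjn] at this)

theorem P1_vis {m : ℕ} {O E : Finset (Fin 3)} {A : Fin (m + 2) → Finset (Fin 3)}
    (h : P1 O E A) : Vis O E (fun j : Fin (m + 1) => A j.succ) ∨ Bad2 O E A 1 := by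
  obtain ⟨k, hk, hO, hE⟩ := h
  by_cases hall : ∀ l : ℕ, 0 < l → l < m + 2 → Disjoint (A (Fin.ofNat (m + 2) l)) E
  · left
    rw [vis_nat]
    refine ⟨fun s hs => ?_, hall⟩
    obtain ⟨l, h1, h2, h3⟩ := hO s hs
    exact ⟨l, by omega, h2, h3⟩
  · right
    push Not at hall
    obtain ⟨l, h0, hl, hd⟩ := hall
    refine ⟨k, hk, hO, hE, l, h0, ?_, hd⟩
    by_contra hc
    exact hd (hE l (by omega) hl)

theorem vis_P1 {m : ℕ} {O E : Finset (Fin 3)} {A : Fin (m + 2) → Finset (Fin 3)}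
    (h : Vis O E (fun j : Fin (m + 1) => A j.succ)) (h0 : ∃ j : Fin (m + 1), 0 ∈ A j.succ) :
    P1 O E A ∨ Bad3 O E A := by
  rw [vis_nat] at h
  obtain ⟨j, hj⟩ := h0
  rw [← ofNat_succ] at hj
  obtain ⟨k, hk, -⟩ := ex_fst A (by omega : 0 < j.val + 1) (by have := j.isLt; omega) hj
  by_cases hall : ∀ s ∈ O, ∃ l : ℕ, k < l ∧ l < m + 2 ∧ s ∈ A (Fin.ofNat (m + 2) l)
  · left
    exact ⟨k, hk, hall, fun l hl hln => h.2 l (by omega) hln⟩
  · right
    push Not at hall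
    obtain ⟨s, hs, hns⟩ := hall
    obtain ⟨l, hl0, hln, hsl⟩ := h.1 s hs
    refine ⟨k, hk, h.1, h.2, s, hs, l, hl0, ?_, hsl⟩
    by_contra hc
    exact hns l (by omega) hln hsl

end Pool.Agent.H60K.H20
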