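import Pool.Agent.Helper20_AEU3.RefKer

/-!
Squad AEU, Part III, module REF: masses (helper20).
-/

namespace Pool.Agent.H60K.H20

open MeasureTheory Complex Filter Topology Pool.Agent.H62T Pool.Agent.H16F Pool.Agent.H60K
  Pool.Agent.H60K.H44
open scoped ENNReal NNReal

variable (u : Fin 3 → ℂ) (h : Fin 3 → ℝ)

theorem cons_meas {m : ℕ} {α : Type*} [MeasurableSpace α] {f : α → ℂ} {g : α → Fin m → ℂ}
    (hf : Measurable f) (hg : Measurable g) :
    Measurable fun a => (Fin.cons (f a) (g a) : Fin (m + 1) → ℂ) := by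
  rw [measurable_pi_iff]
  intro j
  refine Fin.cases ?_ (fun i => ?_) j
  · simp only [Fin.cons_zero]
    exact hf
  · simp only [Fin.cons_succ]
    exact (measurable_pi_apply i).comp hg

theorem lint_two {m : ℕ} (F : (Fin (m + 2) → ℂ) → ℝ≥0∞) (hF : Measurable F) :
    ∫⁻ x, F x = ∫⁻ p : ℂ × ℂ, ∫⁻ z : Fin m → ℂ, F (Fin.cons p.1 (Fin.cons p.2 z)) := by
  rw [lint_cons F hF]
  have h1 : ∀ x0 : ℂ, ∫⁻ z : Fin (m + 1) → ℂ, F (Fin.cons x0 z)
      = ∫⁻ x1 : ℂ, ∫⁻ z : Fin m → ℂ, F (Fin.cons x0 (Fin.cons x1 z)) := fun x0 =>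
    lint_cons (fun z => F (Fin.cons x0 z)) (hF.comp (cons_meas measurable_const measurable_id))
  simp only [h1]
  have hm : Measurable fun q : (ℂ × ℂ) × (Fin m → ℂ) =>
      F (Fin.cons q.1.1 (Fin.cons q.1.2 q.2)) :=
    hF.comp (cons_meas (measurable_fst.comp measurable_fst)
      (cons_meas (measurable_snd.comp measurable_fst) measurable_snd))
  have h2 := lintegral_prod (μ := (volume : Measure ℂ)) (ν := (volume : Measure ℂ))
    (fun p : ℂ × ℂ => ∫⁻ z : Fin m → ℂ, F (Fin.cons p.1 (Fin.cons p.2 z)))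
    hm.lintegral_prod_right'.aemeasurable
  exact h2.symm

theorem wt_cons {m : ℕ} (τ : Fin (m + 2) → ℝ) (hτ : ∀ j, 0 < τ j) (a : Finset (Fin 3))
    (A : Fin (m + 1) → Finset (Fin 3)) (x0 x1 : ℂ) (z : Fin m → ℂ) :
    ENNReal.ofReal (wt u h τ (Fin.cons x0 (Fin.cons x1 z) : Fin (m + 2) → ℂ) (Fin.cons a A))
      = ENNReal.ofReal (kA u h a (τ 0) x0 x1) * cw u h (fun j => τ j.succ) A x1 z x0 := by
  rw [← cw_succ, cw_cyc u h τ hτ]

theorem erase_zero (m : ℕ) : (Finset.univ : Finset (Fin (m + 2))).erase 0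
    = (Finset.univ : Finset (Fin (m + 1))).map (Fin.succEmb (m + 1)) := by
  ext j
  rw [Finset.mem_erase, Finset.mem_map]
  constructor
  · rintro ⟨hj, -⟩
    obtain ⟨i, hi⟩ := Fin.exists_succ_eq.mpr hj
    exact ⟨i, Finset.mem_univ _, hi⟩
  · rintro ⟨i, -, rfl⟩
    exact ⟨Fin.succ_ne_zero i, Finset.mem_univ _⟩

theorem wtw_cons {m : ℕ} (τ : Fin (m + 2) → ℝ) (hτ : ∀ j, 0 < τ j)
    (a : Finset (Fin 3)) (A : Fin (m + 1) → Finset (Fin 3)) (x0 x1 : ℂ) (z : Fin m → ℂ) :
    ENNReal.ofReal (wtw u h τ (Fin.cons x0 (Fin.cons x1 z) : Fin (m + 2) → ℂ) (Fin.cons a A))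
      = ENNReal.ofReal (G (τ 0) (x0 - x1))
        * cw (uc u) (hc h) (fun j => τ j.succ) A (rf u h 0 x1) z x0 := by
  classical
  unfold wtw cw
  rw [ENNReal.ofReal_mul (AEU.H44.G_nonneg (hτ 0) _)]
  congr 1
  have e1 : (Finset.univ : Finset (Fin (m + 2))).erase 0
    = (Finset.univ : Finset (Fin (m + 1))).map (Fin.succEmb (m + 1)) := erase_zero m
  rw [ENNReal.ofReal_prod_of_nonneg fun j _ => kA_nonneg (uc u) (hc h) (hτ j) _ _ _]
  have e2 : ∀ f : Fin (m + 2) → ℝ≥0∞, ∏ j ∈ (Finset.univ : Finset (Fin (m + 2))).erase 0, f j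
      = ∏ i : Fin (m + 1), f i.succ := by
    intro f
    rw [e1, Finset.prod_map]
    rfl
  have e3 := e2 (fun j => ENNReal.ofReal (kA (uc u) (hc h)
    ((Fin.cons a A : Fin (m + 2) → Finset (Fin 3)) j) (τ j)
    (if j = 1 then rf u h 0 ((Fin.cons x0 (Fin.cons x1 z) : Fin (m + 2) → ℂ) 1)
      else (Fin.cons x0 (Fin.cons x1 z) : Fin (m + 2) → ℂ) j)
    ((Fin.cons x0 (Fin.cons x1 z) : Fin (m + 2) → ℂ) (j + 1))))
  refine Eq.trans ?_ (e3.trans ?_)
  · refine Finset.prod_congr ?_ fun _ _ => rfl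
    congr 1
  · refine Finset.prod_congr rfl fun i _ => ?_
    have h1 : (if i.succ = 1 then rf u h 0 ((Fin.cons x0 (Fin.cons x1 z) : Fin (m + 2) → ℂ) 1)
        else (Fin.cons x0 (Fin.cons x1 z) : Fin (m + 2) → ℂ) i.succ)
        = (Fin.cons (rf u h 0 x1) z : Fin (m + 1) → ℂ) i := by
      refine Fin.cases ?_ (fun i' => ?_) i
      · rw [if_pos Fin.succ_zero_eq_one, Fin.cons_zero]
        rfl
      · rw [if_neg]
        · rfl
        · intro hc
          have := congrArg Fin.val hc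
          simp at this
    have h2 : (Fin.cons x0 (Fin.cons x1 z) : Fin (m + 2) → ℂ) (i.succ + 1)
        = (Fin.snoc z x0 : Fin (m + 1) → ℂ) i := by
      refine Fin.lastCases ?_ (fun i' => ?_) i
      · rw [Fin.snoc_last, Fin.succ_last, Fin.last_add_one, Fin.cons_zero]
      · rw [Fin.snoc_castSucc, Fin.succ_castSucc, Fin.coeSucc_eq_succ, Fin.cons_succ, Fin.cons_succ]
    rw [h1, h2, Fin.cons_succ]

theorem wtw_meas {n : ℕ} [NeZero n] (τ : Fin n → ℝ) (A : Fin n → Finset (Fin 3)) :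
    Measurable fun x => wtw u h τ x A := by
  classical
  unfold wtw
  have hG : Measurable fun z : ℂ => G (τ 0) z := by
    unfold G
    fun_prop
  refine (hG.comp ((measurable_pi_apply 0).sub (measurable_pi_apply 1))).mul ?_
  refine Finset.measurable_fun_prod _ fun j _ => ?_
  have hrf : Measurable fun z : ℂ => rf u h 0 z := (H15.rl_cont).measurable
  by_cases hj : j = 1
  · simp only [if_pos hj]
    exact kA_meas_comp _ _ (A j) measurable_const (hrf.comp (measurable_pi_apply 1))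
      (measurable_pi_apply (j + 1))
  · simp only [if_neg hj]
    exact kA_meas_comp _ _ (A j) measurable_const (measurable_pi_apply j)
      (measurable_pi_apply (j + 1))

/-! ### General masses -/

open Classical in
/-- mass of a set for a general density -/
noncomputable def Mg {n : ℕ} (w : (Fin n → Finset (Fin 3)) → (Fin n → ℂ) → ℝ≥0∞)
    (S : (Fin n → ℂ) → (Fin n → Finset (Fin 3)) → Prop) : ℝ≥0∞ :=
  ∑ A, ∫⁻ x, if S x A then w A x else 0

theorem Mg_mono {n : ℕ} (w : (Fin n → Finset (Fin 3)) → (Fin n → ℂ) → ℝ≥0∞)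
    {S S' : (Fin n → ℂ) → (Fin n → Finset (Fin 3)) → Prop} (hS : ∀ x A, S x A → S' x A) :
    Mg w S ≤ Mg w S' := by
  classical
  unfold Mg
  refine Finset.sum_le_sum fun A _ => lintegral_mono fun x => ?_
  show (if S x A then w A x else 0) ≤ if S' x A then w A x else 0
  by_cases h1 : S x A
  · rw [if_pos h1, if_pos (hS x A h1)]
  · rw [if_neg h1]
    exact zero_le

theorem Mg_add {n : ℕ} (w : (Fin n → Finset (Fin 3)) → (Fin n → ℂ) → ℝ≥0∞)
    (hw : ∀ A, Measurable (w A))
    {S S1 S2 : (Fin n → ℂ) → (Fin n → Finset (Fin 3)) → Prop}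
    (hS1 : ∀ A, MeasurableSet {x | S1 x A})
    (h1 : ∀ x A, S x A ↔ S1 x A ∨ S2 x A) (h2 : ∀ x A, S1 x A → ¬ S2 x A) :
    Mg w S = Mg w S1 + Mg w S2 := by
  classical
  unfold Mg
  rw [← Finset.sum_add_distrib]
  refine Finset.sum_congr rfl fun A _ => ?_
  rw [← lintegral_add_left]
  · refine lintegral_congr fun x => ?_
    by_cases c1 : S1 x A
    · rw [if_pos c1, if_neg (h2 x A c1), if_pos ((h1 x A).mpr (Or.inl c1)), add_zero]
    · rw [if_neg c1, zero_add]
      refine if_congr ?_ rfl rfl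
      rw [h1]
      constructor
      · rintro (h | h)
        · exact absurd h c1
        · exact h
      · exact Or.inr
  · exact Measurable.ite (hS1 A) (hw A) measurable_const

theorem Mg_le_add {n : ℕ} (w : (Fin n → Finset (Fin 3)) → (Fin n → ℂ) → ℝ≥0∞)
    (hw : ∀ A, Measurable (w A))
    {S S1 S2 : (Fin n → ℂ) → (Fin n → Finset (Fin 3)) → Prop}
    (hS1 : ∀ A, MeasurableSet {x | S1 x A})
    (h1 : ∀ x A, S x A → S1 x A ∨ S2 x A) :
    Mg w S ≤ Mg w S1 + Mg w S2 := by
  classical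
  unfold Mg
  rw [← Finset.sum_add_distrib]
  refine Finset.sum_le_sum fun A _ => ?_
  rw [← lintegral_add_left]
  · refine lintegral_mono fun x => ?_
    show (if S x A then w A x else 0) ≤ (if S1 x A then w A x else 0)
      + if S2 x A then w A x else 0
    by_cases c : S x A
    · rw [if_pos c]
      rcases h1 x A c with h | h
      · rw [if_pos h]
        exact le_self_add
      · rw [if_pos h]
        exact le_add_self
    · rw [if_neg c]
      exact zero_le
  · exact Measurable.ite (hS1 A) (hw A) measurable_const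

theorem Ms_eq {n : ℕ} [NeZero n] (τ : Fin n → ℝ)
    (S : (Fin n → ℂ) → (Fin n → Finset (Fin 3)) → Prop) :
    Ms u h τ S = Mg (fun A x => ENNReal.ofReal (wt u h τ x A)) S := rfl

open Classical in
theorem Mtw_eq {n : ℕ} [NeZero n] (τ : Fin n → ℝ)
    (S : (Fin n → ℂ) → (Fin n → Finset (Fin 3)) → Prop) :
    Mtw u h τ S = Mg (fun A x => if A 0 = ∅ then ENNReal.ofReal (wtw u h τ x A) else 0) S := by
  unfold Mtw Mg
  refine Finset.sum_congr rfl fun A _ => lintegral_congr fun x => ?_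
  by_cases c1 : A 0 = ∅
  · by_cases c2 : S x A
    · rw [if_pos ⟨c1, c2⟩, if_pos c2]
      exact (if_pos c1).symm
    · rw [if_neg (fun h => c2 h.2), if_neg c2]
  · rw [if_neg (fun h => c1 h.1)]
    by_cases c2 : S x A
    · rw [if_pos c2]
      exact (if_neg c1).symm
    · rw [if_neg c2]

theorem fw_meas {n : ℕ} [NeZero n] (τ : Fin n → ℝ) (A : Fin n → Finset (Fin 3)) :
    Measurable fun x => ENNReal.ofReal (wt u h τ x A) :=
  ENNReal.measurable_ofReal.comp (wt_meas u h τ A)

open Classical in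
theorem fww_meas {n : ℕ} [NeZero n] (τ : Fin n → ℝ) (A : Fin n → Finset (Fin 3)) :
    Measurable fun x => if A 0 = ∅ then ENNReal.ofReal (wtw u h τ x A) else 0 := by
  by_cases c : A 0 = ∅
  · simp only [if_pos c]
    exact ENNReal.measurable_ofReal.comp (wtw_meas u h τ A)
  · simp only [if_neg c]
    exact measurable_const

/-! ### Masses as integrals over the first two points -/

section Two

variable {m : ℕ} (τ : Fin (m + 2) → ℝ) (hτ : ∀ j, 0 < τ j)
  (R : (Fin (m + 1) → Finset (Fin 3)) → Prop) (S : ℂ → ℂ → Prop)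
  (hS : MeasurableSet {p : ℂ × ℂ | S p.1 p.2})

include hS in
theorem S_meas (n : ℕ) : MeasurableSet {x : Fin (n + 2) → ℂ | S (x 0) (x 1)} := by
  have hm : Measurable fun x : Fin (n + 2) → ℂ => (x 0, x 1) :=
    (measurable_pi_apply (0 : Fin (n + 2))).prodMk (measurable_pi_apply 1)
  exact hm hS

open Classical in
include hS in
/-- general form of the computation -/
theorem two_gen (w : (Fin (m + 2) → Finset (Fin 3)) → (Fin (m + 2) → ℂ) → ℝ≥0∞)
    (hw : ∀ A, Measurable (w A)) (g : Finset (Fin 3) → ℂ → ℂ → ℝ≥0∞)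
    (hg : ∀ a, Measurable fun p : ℂ × ℂ => g a p.1 p.2)
    (c : (Fin (m + 1) → Finset (Fin 3)) → ℂ → ℂ → (Fin m → ℂ) → ℝ≥0∞)
    (hc : ∀ A, Measurable fun q : (ℂ × ℂ) × (Fin m → ℂ) => c A q.1.1 q.1.2 q.2)
    (hwc : ∀ a A x0 x1 z, w (Fin.cons a A) (Fin.cons x0 (Fin.cons x1 z)) = g a x0 x1 * c A x0 x1 z)
    (hfin : ∀ a x0 x1, g a x0 x1 ≠ ⊤) :
    Mg w (fun x A => R (fun j => A j.succ) ∧ S (x 0) (x 1))
      = ∫⁻ p : ℂ × ℂ, if S p.1 p.2 then (∑ a, g a p.1 p.2)
        * ∑ A, (if R A then ∫⁻ z, c A p.1 p.2 z else 0) else 0 := by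
  unfold Mg
  rw [sum_cons]
  have hcm : ∀ A, Measurable fun p : ℂ × ℂ => ∫⁻ z, c A p.1 p.2 z := fun A =>
    (hc A).lintegral_prod_right'
  have h1 : ∀ (a : Finset (Fin 3)) (A : Fin (m + 1) → Finset (Fin 3)),
      ∫⁻ x : Fin (m + 2) → ℂ, @ite _ (R (fun j => (Fin.cons a A : Fin (m + 2) → Finset (Fin 3))
        j.succ) ∧ S (x 0) (x 1)) (Classical.propDecidable _) (w (Fin.cons a A) x) 0
      = ∫⁻ p : ℂ × ℂ, if S p.1 p.2 then g a p.1 p.2
        * (if R A then ∫⁻ z, c A p.1 p.2 z else 0) else 0 := by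
    intro a A
    have e0 : (fun j => (Fin.cons a A : Fin (m + 2) → Finset (Fin 3)) j.succ) = A := by
      funext j
      exact Fin.cons_succ _ _ _
    rw [e0]
    by_cases hR : R A
    · simp only [hR, true_and, if_true]
      rw [lint_two]
      · refine lintegral_congr fun p => ?_
        by_cases hs : S p.1 p.2
        · rw [if_pos hs]
          refine Eq.trans (lintegral_congr fun z => if_pos hs) ?_
          simp only [hwc]
          exact lintegral_const_mul' _ _ (hfin _ _ _)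
        · rw [if_neg hs]
          refine Eq.trans (lintegral_congr fun z => if_neg hs) ?_
          exact lintegral_zero
      · exact Measurable.ite (S_meas S hS m) (hw _) measurable_const
    · simp only [hR, false_and, if_false, mul_zero, ite_self, lintegral_zero]
  refine Eq.trans (Finset.sum_congr rfl fun a _ => Finset.sum_congr rfl fun A _ => h1 a A) ?_
  have hm1 : ∀ (a : Finset (Fin 3)) (A : Fin (m + 1) → Finset (Fin 3)),
      Measurable fun p : ℂ × ℂ => if S p.1 p.2 then g a p.1 p.2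
        * (if R A then ∫⁻ z, c A p.1 p.2 z else 0) else 0 := by
    intro a A
    refine Measurable.ite hS ((hg a).mul ?_) measurable_const
    by_cases hR : R A
    · simp only [if_pos hR]
      exact hcm A
    · simp only [if_neg hR]
      exact measurable_const
  have h2 : ∀ a : Finset (Fin 3), ∑ A : Fin (m + 1) → Finset (Fin 3),
      (∫⁻ p : ℂ × ℂ, if S p.1 p.2 then g a p.1 p.2
        * (if R A then ∫⁻ z, c A p.1 p.2 z else 0) else 0)
      = ∫⁻ p : ℂ × ℂ, ∑ A : Fin (m + 1) → Finset (Fin 3), if S p.1 p.2 then g a p.1 p.2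
        * (if R A then ∫⁻ z, c A p.1 p.2 z else 0) else 0 := fun a =>
    (lintegral_finsetSum _ fun A _ => hm1 a A).symm
  simp only [h2]
  rw [← lintegral_finsetSum _ fun a _ => Finset.measurable_fun_sum _ fun A _ => hm1 a A]
  refine lintegral_congr fun p => ?_
  by_cases hs : S p.1 p.2
  · simp only [if_pos hs]
    rw [Finset.sum_mul_sum]
  · simp only [if_neg hs, Finset.sum_const_zero]

open Classical in
include hτ hS in
theorem Ms_two : Ms u h τ (fun x A => R (fun j => A j.succ) ∧ S (x 0) (x 1))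
    = ∫⁻ p : ℂ × ℂ, if S p.1 p.2 then ENNReal.ofReal (G (τ 0) (p.1 - p.2))
      * Cs u h R (fun j => τ j.succ) p.2 p.1 else 0 := by
  rw [Ms_eq, two_gen R S hS (fun A x => ENNReal.ofReal (wt u h τ x A)) (fw_meas u h τ)
    (fun a x0 x1 => ENNReal.ofReal (kA u h a (τ 0) x0 x1))
    (fun a => ENNReal.measurable_ofReal.comp
      (kA_meas_comp u h a measurable_const measurable_fst measurable_snd))
    (fun A x0 x1 z => cw u h (fun j => τ j.succ) A x1 z x0)
    (fun A => cw_meas_comp u h _ A (measurable_snd.comp measurable_fst) measurable_snd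
      (measurable_fst.comp measurable_fst))
    (fun a A x0 x1 z => wt_cons u h τ hτ a A x0 x1 z)
    (fun _ _ _ => ENNReal.ofReal_ne_top)]
  refine lintegral_congr fun p => ?_
  by_cases hs : S p.1 p.2
  · rw [if_pos hs, if_pos hs, sum_all u h (hτ 0)]
    rfl
  · rw [if_neg hs, if_neg hs]

open Classical in
include hτ hS in
theorem Mtw_two : Mtw u h τ (fun x A => R (fun j => A j.succ) ∧ S (x 0) (x 1))
    = ∫⁻ p : ℂ × ℂ, if S p.1 p.2 then ENNReal.ofReal (G (τ 0) (p.1 - p.2))
      * Cs (uc u) (hc h) R (fun j => τ j.succ) (rf u h 0 p.2) p.1 else 0 := by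
  have hG : Measurable fun p : ℂ × ℂ => ENNReal.ofReal (G (τ 0) (p.1 - p.2)) := by
    unfold G
    fun_prop
  have hrf : Measurable fun z : ℂ => rf u h 0 z := (H15.rl_cont).measurable
  rw [Mtw_eq, two_gen R S hS (fun A x => if A 0 = ∅ then ENNReal.ofReal (wtw u h τ x A) else 0)
    (fww_meas u h τ)
    (fun a x0 x1 => if a = ∅ then ENNReal.ofReal (G (τ 0) (x0 - x1)) else 0)
    (fun a => ?_)
    (fun A x0 x1 z => cw (uc u) (hc h) (fun j => τ j.succ) A (rf u h 0 x1) z x0)
    (fun A => cw_meas_comp _ _ _ A (hrf.comp (measurable_snd.comp measurable_fst)) measurable_snd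
      (measurable_fst.comp measurable_fst))
    (fun a A x0 x1 z => ?_)
    (fun a _ _ => ?_)]
  · refine lintegral_congr fun p => ?_
    by_cases hs : S p.1 p.2
    · rw [if_pos hs, if_pos hs]
      simp only [Finset.sum_ite_eq', Finset.mem_univ, if_true]
      rfl
    · rw [if_neg hs, if_neg hs]
  · by_cases ha : a = ∅
    · simp only [if_pos ha]
      exact hG
    · simp only [if_neg ha]
      exact measurable_const
  · show (if (Fin.cons a A : Fin (m + 2) → Finset (Fin 3)) 0 = ∅ then _ else _) = _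
    rw [Fin.cons_zero]
    by_cases ha : a = ∅
    · rw [if_pos ha, if_pos ha]
      exact wtw_cons u h τ hτ a A x0 x1 z
    · rw [if_neg ha, if_neg ha, zero_mul]
  · by_cases ha : a = ∅
    · rw [if_pos ha]
      exact ENNReal.ofReal_ne_top
    · rw [if_neg ha]
      exact ENNReal.zero_ne_top

end Two

end Pool.Agent.H60K.H20
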